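import Pool.Agent.Helper99.Clust.Defs

/-!
# The 3-adic odometer: residues and Haar measure

`res k z ∈ [0, 3^k)` is the residue of `z ∈ ℤ_3` modulo `3^k`; `odo d` is the Haar probability
measure of `ℤ_3^d`.
-/

open MeasureTheory Set
open scoped ENNReal

namespace Pool.Agent.Helper99.Clust

/-- The Borel σ-algebra of `ℤ_3`. -/
noncomputable instance instMeasurableSpacePadic : MeasurableSpace ℤ_[3] := borel _

instance : BorelSpace ℤ_[3] := ⟨rfl⟩

/-- The residue modulo `3^k`. -/
noncomputable def res (k : ℕ) (z : ℤ_[3]) : ℤ := ((PadicInt.toZModPow k z).val : ℤ)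

lemma res_nonneg (k : ℕ) (z : ℤ_[3]) : 0 ≤ res k z := Int.natCast_nonneg _

lemma res_lt (k : ℕ) (z : ℤ_[3]) : res k z < 3 ^ k := by
  have h := ZMod.val_lt (PadicInt.toZModPow k z)
  unfold res
  exact_mod_cast h

/-- For finitely many moduli a 3-adic integer looks like an integer. -/
lemma exists_int (z : ℤ_[3]) (K : ℕ) :
    ∃ h : ℤ, ∀ k ≤ K, ∀ x : ℤ, res k (z + x) = (h + x) % 3 ^ k := by
  refine ⟨(z.appr K : ℤ), fun k hk x => ?_⟩
  have h1 : PadicInt.toZModPow k z = ((z.appr K : ℕ) : ZMod (3 ^ k)) := by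
    have h2 := PadicInt.appr_spec K z
    have h3 : z - (z.appr K : ℤ_[3]) ∈ Ideal.span {((3 : ℕ) : ℤ_[3]) ^ k} := by
      refine (Ideal.span_singleton_le_span_singleton.2 ?_) h2
      exact pow_dvd_pow _ hk
    rw [← PadicInt.ker_toZModPow, RingHom.mem_ker, map_sub, map_natCast, sub_eq_zero] at h3
    exact h3
  have h4 : PadicInt.toZModPow k (z + (x : ℤ_[3])) = (((z.appr K : ℤ) + x : ℤ) : ZMod (3 ^ k)) := by
    rw [map_add, h1, map_intCast]
    push_cast
    rfl
  rw [res, h4, ZMod.val_intCast]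
  push_cast
  rfl

lemma measurable_res (k : ℕ) : Measurable (res k) := by
  have h : Measurable[_, ⊤] (PadicInt.toZModPow k : ℤ_[3] → ZMod (3 ^ k)) := by
    let _ : MeasurableSpace (ZMod (3 ^ k)) := ⊤
    refine measurable_to_countable' fun r => ?_
    obtain ⟨a, ha⟩ : ∃ a : ℤ_[3], PadicInt.toZModPow k a = r :=
      ⟨(r.val : ℤ_[3]), by rw [map_natCast, ZMod.natCast_zmod_val]⟩
    have h2 : (PadicInt.toZModPow k : ℤ_[3] → ZMod (3 ^ k)) ⁻¹' {r} =
        {z | ‖z - a‖ ≤ (3 : ℝ) ^ (-(k : ℤ))} := by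
      ext z
      rw [Set.mem_preimage, Set.mem_singleton_iff, ← ha, ← sub_eq_zero, ← map_sub,
        ← RingHom.mem_ker, PadicInt.ker_toZModPow, Set.mem_ofPred_eq]
      have := PadicInt.norm_le_pow_iff_mem_span_pow (p := 3) (z - a) k
      push_cast at this ⊢
      rw [this]
    rw [h2]
    exact (isClosed_le (by fun_prop) continuous_const).measurableSet
  let _ : MeasurableSpace (ZMod (3 ^ k)) := ⊤
  have h3 : Measurable fun r : ZMod (3 ^ k) => ((r.val : ℕ) : ℤ) := fun _ _ => trivial
  exact h3.comp h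

/-- The Haar probability measure of `ℤ_3`. -/
noncomputable def haar₁ : Measure ℤ_[3] := Measure.addHaarMeasure ⊤

instance : IsProbabilityMeasure haar₁ := ⟨by
  have := Measure.addHaarMeasure_self (K₀ := (⊤ : TopologicalSpace.PositiveCompacts ℤ_[3]))
  simpa [haar₁] using this⟩

instance : haar₁.IsAddLeftInvariant := by unfold haar₁; infer_instance

lemma haar₁_res_aux (k : ℕ) (r : ZMod (3 ^ k)) :
    haar₁ {z | PadicInt.toZModPow k z = r} = haar₁ {z | PadicInt.toZModPow k z = 0} := by
  have h : {z : ℤ_[3] | PadicInt.toZModPow k z = 0} =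
      (fun z => (r.val : ℤ_[3]) + z) ⁻¹' {z | PadicInt.toZModPow k z = r} := by
    ext z
    simp
  rw [h, measure_preimage_add]

lemma measurableSet_toZModPow (k : ℕ) (r : ZMod (3 ^ k)) :
    MeasurableSet {z : ℤ_[3] | PadicInt.toZModPow k z = r} := by
  have h : {z : ℤ_[3] | PadicInt.toZModPow k z = r} = res k ⁻¹' {(r.val : ℤ)} := by
    ext z
    simp only [res, Set.mem_ofPred_eq, Set.mem_preimage, Set.mem_singleton_iff, Nat.cast_inj]
    constructor
    · rintro rfl; rfl
    · intro h2; exact ZMod.val_injective _ h2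
  rw [h]
  exact measurable_res k (measurableSet_singleton _)

lemma haar₁_toZModPow (k : ℕ) (r : ZMod (3 ^ k)) :
    haar₁ {z | PadicInt.toZModPow k z = r} = ((3 : ℝ≥0∞) ^ k)⁻¹ := by
  have h1 : ∑ r : ZMod (3 ^ k), haar₁ {z | PadicInt.toZModPow k z = r} = 1 := by
    rw [← measure_biUnion_finset]
    · have h2 : (⋃ r ∈ (Finset.univ : Finset (ZMod (3 ^ k))),
          {z : ℤ_[3] | PadicInt.toZModPow k z = r}) = Set.univ := by
        ext z; simp
      rw [h2, measure_univ]
    · intro a _ b _ hab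
      rw [Function.onFun, Set.disjoint_left]
      intro z hz1 hz2
      exact hab (hz1.symm.trans hz2)
    · intro r _
      exact measurableSet_toZModPow k r
  simp_rw [haar₁_res_aux k] at h1 ⊢
  rw [Finset.sum_const, Finset.card_univ, ZMod.card, nsmul_eq_mul] at h1
  push_cast at h1
  exact ENNReal.eq_inv_of_mul_eq_one_left (by rwa [mul_comm])

/-- All residues have the same probability. -/
lemma haar₁_res (k : ℕ) {r : ℤ} (h0 : 0 ≤ r) (h1 : r < 3 ^ k) :
    haar₁ {z | res k z = r} = ((3 : ℝ≥0∞) ^ k)⁻¹ := by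
  rw [← haar₁_toZModPow k (r : ZMod (3 ^ k))]
  congr 1
  ext z
  simp only [res, Set.mem_ofPred_eq]
  constructor
  · intro h
    rw [← h]
    simp
  · intro h
    rw [h, ZMod.val_intCast]
    push_cast
    exact Int.emod_eq_of_lt h0 h1

/-- The 3-adic odometer space. -/
abbrev Odo (d : ℕ) : Type := Fin d → ℤ_[3]

/-- The Haar probability measure of `ℤ_3^d`. -/
noncomputable def odo (d : ℕ) : Measure (Odo d) := Measure.pi fun _ => haar₁

instance (d : ℕ) : IsProbabilityMeasure (odo d) := by unfold odo; infer_instance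

instance (d : ℕ) : (odo d).IsAddLeftInvariant := by unfold odo; infer_instance

variable {d : ℕ}

/-- Move by a lattice vector. -/
noncomputable def shift (ξ : Odo d) (x : Site d) : Odo d := fun a => ξ a + (x a : ℤ_[3])

lemma shift_shift (ξ : Odo d) (x y : Site d) : shift (shift ξ x) y = shift ξ (x + y) := by
  funext a
  simp [shift, add_assoc]

lemma shift_zero (ξ : Odo d) : shift ξ 0 = ξ := by
  funext a; simp [shift]

lemma measurePreserving_shift (x : Site d) :
    MeasurePreserving (fun ξ : Odo d => shift ξ x) (odo d) (odo d) := by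
  have h : (fun ξ : Odo d => shift ξ x) = fun ξ => (fun a => (x a : ℤ_[3])) + ξ := by
    funext ξ a
    simp [shift, add_comm]
  rw [h]
  exact measurePreserving_add_left _ _

/-- The residues of `ξ` modulo `3^(k a)`. -/
noncomputable def resv (k : Fin d → ℕ) (ξ : Odo d) : Site d := fun a => res (k a) (ξ a)

lemma measurable_resv (k : Fin d → ℕ) : Measurable (resv k) := by
  refine measurable_pi_lambda _ fun a => ?_
  exact (measurable_res (k a)).comp (measurable_pi_apply a)

/-- For finitely many moduli a point of the odometer looks like an integer point. -/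
lemma exists_site (ξ : Odo d) (K : ℕ) : ∃ h : Site d, ∀ k : Fin d → ℕ, (∀ a, k a ≤ K) →
    ∀ x : Site d, resv k (shift ξ x) = fun a => (h a + x a) % 3 ^ k a := by
  choose h hh using fun a => exists_int (ξ a) K
  refine ⟨h, fun k hk x => ?_⟩
  funext a
  exact hh a (k a) (hk a) (x a)

/-- The probability of a residue vector. -/
lemma odo_resv (k : Fin d → ℕ) {r : Site d} (h : ∀ a, 0 ≤ r a ∧ r a < 3 ^ k a) :
    odo d {ξ | resv k ξ = r} = ∏ a, ((3 : ℝ≥0∞) ^ k a)⁻¹ := by
  have h1 : {ξ : Odo d | resv k ξ = r} = Set.pi Set.univ fun a => {z | res (k a) z = r a} := by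
    ext ξ
    simp [resv, funext_iff]
  rw [h1, odo, Measure.pi_pi]
  exact Finset.prod_congr rfl fun a _ => haar₁_res (k a) (h a).1 (h a).2

/-- The expectation of a function of the residues. -/
lemma lintegral_resv (k : Fin d → ℕ) (f : Site d → ℝ≥0∞) :
    ∫⁻ ξ, f (resv k ξ) ∂odo d =
      (∏ a, ((3 : ℝ≥0∞) ^ k a)⁻¹) * ∑ r ∈ Fintype.piFinset fun a => Finset.Ico (0 : ℤ) (3 ^ k a),
        f r := by
  have hmem : ∀ ξ : Odo d, resv k ξ ∈ Fintype.piFinset fun a => Finset.Ico (0 : ℤ) (3 ^ k a) := by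
    intro ξ
    rw [Fintype.mem_piFinset]
    intro a
    rw [Finset.mem_Ico]
    exact ⟨res_nonneg _ _, res_lt _ _⟩
  have h1 : ∀ ξ : Odo d, f (resv k ξ) =
      ∑ r ∈ Fintype.piFinset fun a => Finset.Ico (0 : ℤ) (3 ^ k a),
        {ξ | resv k ξ = r}.indicator (fun _ => f r) ξ := by
    intro ξ
    rw [Finset.sum_eq_single_of_mem (resv k ξ) (hmem ξ)]
    · rw [Set.indicator_of_mem]
      rfl
    · intro r _ hr
      rw [Set.indicator_of_notMem]
      exact fun h => hr h.symm
  simp_rw [h1]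
  have hms : ∀ r, MeasurableSet {ξ : Odo d | resv k ξ = r} := fun r =>
    measurable_resv k (measurableSet_singleton r)
  rw [lintegral_finsetSum _ fun r _ => measurable_const.indicator (hms r), Finset.mul_sum]
  refine Finset.sum_congr rfl fun r hr => ?_
  rw [lintegral_indicator (hms r), setLIntegral_const, odo_resv, mul_comm]
  intro a
  rw [Fintype.mem_piFinset] at hr
  exact Finset.mem_Ico.1 (hr a)

end Pool.Agent.Helper99.Clust
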