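import Pool.Agent.Helper99.Clust.Limit
import Pool.Agent.Helper63.Clust.Pat

/-!
# From a tower of finite patterns to a sequence of periodic patterns
-/

open MeasureTheory Set
open Helper63.Clust
open scoped ENNReal

namespace Pool.Agent.Helper99.Clust

/-- A tower of finite patterns whose sizes are powers of `3`. -/
structure Tower where
  /-- the patterns -/
  P : ℕ → Pat
  /-- the steps -/
  st : ∀ k, Step (P k)
  /-- each pattern is the result of the step -/
  succ : ∀ k, P (k + 1) = (st k).next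
  /-- exponents of the sizes -/
  al : ℕ → ℕ
  /-- exponents of the sizes -/
  be : ℕ → ℕ
  /-- exponents of the sizes -/
  ga : ℕ → ℕ
  ha : ∀ k, (P k).a = 3 ^ al k
  hb : ∀ k, (P k).b = 3 ^ be k
  hc : ∀ k, (P k).c = 3 ^ ga k

/-- The rotation of the coordinates. -/
def s : Equiv.Perm (Fin 3) where
  toFun := ![2, 0, 1]
  invFun := ![1, 2, 0]
  left_inv := by intro i; fin_cases i <;> rfl
  right_inv := by intro i; fin_cases i <;> rfl

/-- The point `x` in the frame of level `k`. -/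
def own (k : ℕ) (x : Site 3) : V := (x ((s ^ k) 0), x ((s ^ k) 1), x ((s ^ k) 2))

lemma own_succ (k : ℕ) (x : Site 3) :
    own (k + 1) x = ((own k x).2.2, (own k x).1, (own k x).2.1) := by
  simp only [own, pow_succ, Equiv.Perm.mul_apply]
  rfl

lemma inv_s (k : ℕ) (i : Fin 3) : (s ^ k)⁻¹ ((s ^ k) i) = i := (s ^ k).symm_apply_apply i

/-- The unit vector of a direction. -/
def unit : Dir → Fin 3 → ℤ
  | .xp => ![1, 0, 0]
  | .xm => ![-1, 0, 0]
  | .yp => ![0, 1, 0]
  | .ym => ![0, -1, 0]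
  | .zp => ![0, 0, 1]
  | .zm => ![0, 0, -1]

lemma mv_eq (e : Dir) (x y z : ℤ) : e.mv (x, y, z) = (x + unit e 0, y + unit e 1, z + unit e 2) := by
  cases e <;> simp [Dir.mv, unit] <;> rfl

lemma unit_injective : Function.Injective unit := by
  intro e f h
  have h0 := congrFun h 0
  have h1 := congrFun h 1
  have h2 := congrFun h 2
  cases e <;> cases f <;> first | rfl | (exfalso; revert h0 h1 h2; decide)

lemma unit_neg (e : Dir) : unit e.neg = - unit e := by
  cases e <;> (funext i; fin_cases i <;> rfl)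

lemma neg_mv (e : Dir) (v : V) : e.neg.mv (e.mv v) = v := by
  obtain ⟨x, y, z⟩ := v
  cases e <;> simp [Dir.mv, Dir.neg]

lemma unit_rot (e : Dir) (i : Fin 3) : unit e.rot (s⁻¹ i) = unit e i := by
  cases e <;> fin_cases i <;> rfl

lemma unit_sum (e : Dir) : ∑ i, |unit e i| = 1 := by
  rw [Fin.sum_univ_three]
  cases e <;> rfl

lemma unit_bound (e : Dir) (i : Fin 3) : -1 ≤ unit e i ∧ unit e i ≤ 1 := by
  cases e <;> fin_cases i <;> decide

/-- The direction `e` of the frame of level `k` as a lattice vector. -/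
def vec (k : ℕ) (e : Dir) : Site 3 := fun a => unit e ((s ^ k)⁻¹ a)

lemma vec_injective (k : ℕ) : Function.Injective (vec k) := by
  intro e f h
  apply unit_injective
  funext i
  have := congrFun h ((s ^ k) i)
  simpa [vec] using this

lemma vec_neg (k : ℕ) (e : Dir) : vec k e.neg = - vec k e := by
  funext a
  simp [vec, unit_neg]

lemma vec_rot (k : ℕ) (e : Dir) : vec (k + 1) e.rot = vec k e := by
  funext a
  have h : (s ^ (k + 1))⁻¹ a = s⁻¹ ((s ^ k)⁻¹ a) := by
    rw [pow_succ, mul_inv_rev, Equiv.Perm.mul_apply]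
  rw [vec, h, unit_rot, vec]

lemma dist₁_vec (k : ℕ) (X : Site 3) (e : Dir) : dist₁ X (X + vec k e) = 1 := by
  rw [← unit_sum e, dist₁, ← Equiv.sum_comp (s ^ k)]
  refine Finset.sum_congr rfl fun i _ => ?_
  simp [vec]

lemma own_add_vec (k : ℕ) (X : Site 3) (e : Dir) : own k (X + vec k e) = e.mv (own k X) := by
  rw [own, own, mv_eq]
  simp [vec]

/-- The neighbourhood in terms of directions. -/
lemma mem_nbhd_iff (k : ℕ) (X Y : Site 3) : Y ∈ nbhd X ↔ Y = X ∨ ∃ e, Y = X + vec k e := by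
  constructor
  · intro h
    have h1 : ∑ i, |Y ((s ^ k) i) - X ((s ^ k) i)| ≤ 1 := by
      rw [Equiv.sum_comp (s ^ k) (fun a => |Y a - X a|)]
      refine le_trans (le_of_eq ?_) h
      exact Finset.sum_congr rfl fun i _ => abs_sub_comm _ _
    rw [Fin.sum_univ_three] at h1
    set u0 := Y ((s ^ k) 0) - X ((s ^ k) 0) with hu0
    set u1 := Y ((s ^ k) 1) - X ((s ^ k) 1) with hu1
    set u2 := Y ((s ^ k) 2) - X ((s ^ k) 2) with hu2
    have key : ∀ w : Fin 3 → ℤ, u0 = w 0 → u1 = w 1 → u2 = w 2 →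
        Y = X + fun a => w ((s ^ k)⁻¹ a) := by
      intro w h0 h1 h2
      funext a
      obtain ⟨i, rfl⟩ := (s ^ k).surjective a
      simp only [Pi.add_apply, inv_s]
      fin_cases i
      · show Y ((s ^ k) 0) = X ((s ^ k) 0) + w 0
        omega
      · show Y ((s ^ k) 1) = X ((s ^ k) 1) + w 1
        omega
      · show Y ((s ^ k) 2) = X ((s ^ k) 2) + w 2
        omega
    have a0 := abs_nonneg u0
    have a1 := abs_nonneg u1
    have a2 := abs_nonneg u2
    clear_value u0 u1 u2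
    have hz : ∀ u : ℤ, |u| ≤ 0 → u = 0 := fun u hu =>
      abs_eq_zero.1 (le_antisymm hu (abs_nonneg u))
    have ho : ∀ u : ℤ, u ≠ 0 → |u| ≤ 1 → u = 1 ∨ u = -1 := by
      intro u hu hu1
      have h2 := abs_pos.2 hu
      have h3 : |u| = 1 := by omega
      exact (abs_eq (by norm_num)).1 h3
    by_cases h0 : u0 = 0
    · by_cases h1' : u1 = 0
      · by_cases h2' : u2 = 0
        · left
          have := key (fun _ => 0) h0 h1' h2'
          rw [this]
          funext a; simp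
        · right
          rcases ho u2 h2' (by omega) with h3 | h3
          · exact ⟨.zp, key (unit .zp) h0 h1' h3⟩
          · exact ⟨.zm, key (unit .zm) h0 h1' h3⟩
      · right
        have h4 := abs_pos.2 h1'
        have h2' := hz u2 (by omega)
        rcases ho u1 h1' (by omega) with h3 | h3
        · exact ⟨.yp, key (unit .yp) h0 h3 h2'⟩
        · exact ⟨.ym, key (unit .ym) h0 h3 h2'⟩
    · right
      have h4 := abs_pos.2 h0
      have h1' := hz u1 (by omega)
      have h2' := hz u2 (by omega)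
      rcases ho u0 h0 (by omega) with h3 | h3
      · exact ⟨.xp, key (unit .xp) h3 h1' h2'⟩
      · exact ⟨.xm, key (unit .xm) h3 h1' h2'⟩
  · rintro (rfl | ⟨e, rfl⟩)
    · exact Flow.mem_nbhd_self _
    · exact (dist₁_vec k X e).le

namespace Tower

variable (T : Tower)

/-- The exponents in the frame of level `k`. -/
def E (k : ℕ) : Fin 3 → ℕ := ![T.al k, T.be k, T.ga k]

/-- The exponents in the absolute frame. -/
def e (k : ℕ) (a : Fin 3) : ℕ := T.E k ((s ^ k)⁻¹ a)

/-- The position of `X` in the cell of level `k`. -/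
def pos (k : ℕ) (X : Site 3) : V := own k (modv (T.e k) X)

lemma pos_eq (k : ℕ) (X : Site 3) : T.pos k X =
    ((own k X).1 % (T.P k).a, (own k X).2.1 % (T.P k).b, (own k X).2.2 % (T.P k).c) := by
  rw [T.ha, T.hb, T.hc, pos, own, own]
  simp only [modv, e, inv_s]
  rfl

lemma b_succ (k : ℕ) : (T.P (k + 1)).b = (T.P k).a := by rw [T.succ]; rfl

lemma c_succ (k : ℕ) : (T.P (k + 1)).c = (T.P k).c * (T.P k).b := by rw [T.succ]; rfl

lemma a_succ (k : ℕ) : (T.P (k + 1)).a = (T.st k).a' := by rw [T.succ]; rfl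

lemma tau_succ (k : ℕ) : (T.P (k + 1)).τ = (T.st k).x0 := by rw [T.succ]; rfl

lemma c_dvd (k : ℕ) : (T.P k).c ∣ (T.P (k + 1)).a := by
  have h1 : (T.P k).c ≤ (T.P (k + 1)).a := by
    rw [a_succ]
    have h2 := (T.st k).fit'
    have h3 := (T.st k).hx0'
    have h4 := (T.st k).hL
    have h5 := (T.P k).hc
    have h6 := (T.P k).hb
    have h7 := (T.P k).hτ
    have h8 := (T.P k).fit
    have h9 : 0 < (T.P k).c * ((T.P k).b + 1) := by positivity
    have h10 : 0 < (T.P k).c * (T.P k).b := by positivity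
    have h11 : 0 < (T.P k).c * (T.P k).b * ((T.P k).a + 1) := by
      have : 0 < (T.P k).a + 1 := by omega
      positivity
    omega
  rw [T.ha, T.hc] at h1 ⊢
  refine pow_dvd_pow 3 ?_
  exact (pow_le_pow_iff_right₀ (by norm_num : (1 : ℤ) < 3)).1 h1

/-- The position at level `k` in terms of the position at level `k + 1`. -/
lemma pos_succ (k : ℕ) (X : Site 3) :
    T.pos k X = ((T.pos (k + 1) X).2.1, (T.pos (k + 1) X).2.2 % (T.P k).b,
      (T.pos (k + 1) X).1 % (T.P k).c) := by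
  rw [pos_eq, pos_eq, own_succ, b_succ, c_succ]
  simp only
  rw [Int.emod_emod_of_dvd _ (T.c_dvd k), Int.emod_emod_of_dvd _ (dvd_mul_left _ _)]

/-- The point `v` of a cell of level `k + 1` is well inside a copy of the pattern `k`. -/
def Ok (k : ℕ) (v : V) : Prop :=
  (T.st k).x0 ≤ v.1 ∧ v.1 < (T.st k).x1 ∧ (T.P k).τ ≤ v.2.1 ∧ v.2.1 ≤ (T.P k).a - 2 ∧
    2 ≤ v.2.2 / (T.P k).b ∧ v.2.2 / (T.P k).b ≤ (T.P k).c - 2 ∧
      1 ≤ v.2.2 % (T.P k).b ∧ v.2.2 % (T.P k).b ≤ (T.P k).b - 2 ∧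
        1 ≤ v.1 % (T.P k).c ∧ v.1 % (T.P k).c ≤ (T.P k).c - 2

lemma cls_copy {k : ℕ} {v : V} (h1 : (T.st k).x0 ≤ v.1) (h2 : v.1 < (T.st k).x1)
    (h3 : (T.P k).τ ≤ v.2.1) (h4 : v.2.1 < (T.P k).a)
    (h5 : 2 ≤ v.2.2 / (T.P k).b ∧ v.2.2 / (T.P k).b ≤ (T.P k).c - 2) :
    (T.st k).G.cls v = .copy v.2.1 (v.2.2 % (T.P k).b) (v.1 % (T.P k).c) :=
  (T.st k).G.cls_copy v.1 v.2.1 v.2.2 h1 h2 h3 h4 h5

lemma phi_succ {k : ℕ} {v : V} (h1 : (T.st k).x0 ≤ v.1) (h2 : v.1 < (T.st k).x1)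
    (h3 : (T.P k).τ ≤ v.2.1) (h4 : v.2.1 < (T.P k).a)
    (h5 : 2 ≤ v.2.2 / (T.P k).b ∧ v.2.2 / (T.P k).b ≤ (T.P k).c - 2) :
    (T.P (k + 1)).φ v = (T.P k).φ (v.2.1, v.2.2 % (T.P k).b, v.1 % (T.P k).c) := by
  rw [T.succ]
  funext n
  show (T.st k).val ((T.st k).G.cls v) n = _
  rw [T.cls_copy h1 h2 h3 h4 h5]
  rfl

lemma dir_succ {k : ℕ} {v : V} (h1 : (T.st k).x0 ≤ v.1) (h2 : v.1 < (T.st k).x1)
    (h3 : (T.P k).τ ≤ v.2.1) (h4 : v.2.1 < (T.P k).a)
    (h5 : 2 ≤ v.2.2 / (T.P k).b ∧ v.2.2 / (T.P k).b ≤ (T.P k).c - 2) :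
    (T.P (k + 1)).dir v = ((T.P k).dir (v.2.1, v.2.2 % (T.P k).b, v.1 % (T.P k).c)).rot := by
  rw [T.succ]
  show Step.cdir (T.P k) ((T.st k).G.cls v) = _
  rw [T.cls_copy h1 h2 h3 h4 h5]
  rfl

/-- The position at level `k` of a point that is not bad. -/
lemma pos_of_ok {k : ℕ} {X : Site 3} (h : T.Ok k (T.pos (k + 1) X)) :
    (T.P k).τ ≤ (T.pos k X).1 ∧ (T.pos k X).1 ≤ (T.P k).a - 2 ∧
      1 ≤ (T.pos k X).2.1 ∧ (T.pos k X).2.1 ≤ (T.P k).b - 2 ∧
        1 ≤ (T.pos k X).2.2 ∧ (T.pos k X).2.2 ≤ (T.P k).c - 2 := by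
  rw [pos_succ]
  obtain ⟨h1, h2, h3, h4, h5, h6, h7, h8, h9, h10⟩ := h
  exact ⟨h3, h4, h7, h8, h9, h10⟩

lemma emod_add_aux {A m v u : ℤ} (hv : A % m = v) (h0 : 0 ≤ v + u) (h1 : v + u < m) :
    (A + u) % m = v + u := by
  rw [← Int.emod_add_emod, hv]
  exact Int.emod_eq_of_lt h0 h1

/-- No wrap-around next to a point that is not bad. -/
lemma pos_add_vec {k : ℕ} {X : Site 3} (h : T.Ok k (T.pos (k + 1) X)) (e : Dir) :
    T.pos k (X + vec k e) = e.mv (T.pos k X) := by
  obtain ⟨h1, h2, h3, h4, h5, h6⟩ := T.pos_of_ok h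
  have hτ := (T.P k).hτ
  have hc := (T.P k).hc
  rw [pos_eq] at h1 h2 h3 h4 h5 h6 ⊢
  rw [pos_eq, own_add_vec]
  have u0 := unit_bound e 0
  have u1 := unit_bound e 1
  have u2 := unit_bound e 2
  clear h
  generalize own k X = w at h1 h2 h3 h4 h5 h6 ⊢
  obtain ⟨x, y, z⟩ := w
  simp only [mv_eq] at h1 h2 h3 h4 h5 h6 ⊢
  rw [emod_add_aux rfl (by omega) (by omega), emod_add_aux rfl (by omega) (by omega),
    emod_add_aux rfl (by omega) (by omega)]

/-- A point that is not bad is not the root of its pattern. -/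
lemma pos_ne_root {k : ℕ} {X : Site 3} (h : T.Ok k (T.pos (k + 1) X)) :
    T.pos k X ≠ ((T.P k).τ, 0, 0) := by
  intro h2
  have h3 := (T.pos_of_ok h).2.2.1
  rw [h2] at h3
  simp at h3

/-- The parent beats everybody else, for points that are not bad. -/
lemma real_max {k : ℕ} {X : Site 3} (h : T.Ok k (T.pos (k + 1) X)) {n : ℕ}
    (hp : 0 < (T.P k).φ (T.pos k X) n) {Y : Site 3} (hY : Y ∈ nbhd X)
    (hne : Y ≠ X + vec k ((T.P k).dir (T.pos k X))) :
    (T.P k).φ (T.pos k Y) n <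
      (T.P k).φ (T.pos k (X + vec k ((T.P k).dir (T.pos k X)))) n := by
  obtain ⟨h1, h2⟩ := (T.P k).P1 _ (T.pos_ne_root h) n hp
  rw [T.pos_add_vec h]
  rcases (mem_nbhd_iff k X Y).1 hY with rfl | ⟨e, rfl⟩
  · exact h1
  · rw [T.pos_add_vec h]
    refine h2 e ?_
    rintro rfl
    exact hne rfl

/-- The resource of the children. -/
lemma real_sum {k : ℕ} {X : Site 3} (hX : ∀ Y ∈ nbhd X, T.Ok k (T.pos (k + 1) Y)) (n : ℕ) :
    (T.P k).φ (T.pos k X) (n + 1) = csum (T.P k).φ (T.P k).dir (T.pos k X) n := by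
  have h := hX X (Flow.mem_nbhd_self X)
  rcases ((T.P k).nonneg (T.pos k X) 0).lt_or_eq with h0 | h0
  · exact (T.P k).P3 _ h0 n
  · have hz : ∀ m, (T.P k).φ (T.pos k X) m = 0 := by
      intro m
      rcases ((T.P k).nonneg (T.pos k X) m).lt_or_eq with h1 | h1
      · exact absurd ((T.P k).pos0 _ m h1) (by rw [← h0]; exact lt_irrefl 0)
      · exact h1.symm
    rw [hz, csum]
    symm
    refine Finset.sum_eq_zero fun e _ => ?_
    split_ifs with h1
    · rcases ((T.P k).nonneg (e.mv (T.pos k X)) n).lt_or_eq with h2 | h2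
      · exfalso
        have hY : X + vec k e ∈ nbhd X := (mem_nbhd_iff k X _).2 (Or.inr ⟨e, rfl⟩)
        have h3 := hX _ hY
        rw [← T.pos_add_vec h] at h2 h1
        have h4 := ((T.P k).P1 _ (T.pos_ne_root h3) n h2).1
        rw [h1, T.pos_add_vec h, neg_mv, hz] at h4
        exact absurd h4 (not_lt.2 ((T.P k).nonneg _ _))
      · exact h2.symm
    · rfl

/-- The pattern of level `k` as a function of the residues. -/
noncomputable def W (k : ℕ) (r : Site 3) (n : ℕ) : ℝ≥0∞ := ENNReal.ofReal ((T.P k).φ (own k r) n)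

/-- The direction to the parent as a function of the residues. -/
noncomputable def D (k : ℕ) (r : Site 3) : Site 3 := vec k ((T.P k).dir (own k r))

/-- The bad residues. -/
def bad (k : ℕ) (r : Site 3) : Prop := ¬ T.Ok k (own (k + 1) r)

lemma W_modv (k : ℕ) (X : Site 3) (n : ℕ) :
    T.W k (modv (T.e k) X) n = ENNReal.ofReal ((T.P k).φ (T.pos k X) n) := rfl

lemma D_modv (k : ℕ) (X : Site 3) :
    T.D k (modv (T.e k) X) = vec k ((T.P k).dir (T.pos k X)) := rfl

lemma not_bad_iff (k : ℕ) (X : Site 3) :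
    ¬ T.bad k (modv (T.e (k + 1)) X) ↔ T.Ok k (T.pos (k + 1) X) := not_not

lemma W_sum {k : ℕ} {X : Site 3} (hX : ∀ Y ∈ nbhd X, T.Ok k (T.pos (k + 1) Y)) (n : ℕ) :
    T.W k (modv (T.e k) X) (n + 1) =
      ∑' Y : {Y : Site 3 // Y ∈ nbhd X ∧ T.W k (modv (T.e k) Y) n ≠ 0 ∧
        Y + T.D k (modv (T.e k) Y) = X}, T.W k (modv (T.e k) Y) n := by
  classical
  have h := hX X (Flow.mem_nbhd_self X)
  change _ = ∑' Y : ({Y : Site 3 | Y ∈ nbhd X ∧ T.W k (modv (T.e k) Y) n ≠ 0 ∧
        Y + T.D k (modv (T.e k) Y) = X} : Set (Site 3)), T.W k (modv (T.e k) Y) n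
  rw [tsum_subtype (f := fun Y => T.W k (modv (T.e k) Y) n)]
  rw [tsum_eq_sum (s := Finset.univ.image fun e => X + vec k e)]
  · rw [Finset.sum_image]
    · rw [W_modv, T.real_sum hX, csum, ENNReal.ofReal_sum_of_nonneg]
      · refine Finset.sum_congr rfl fun e _ => ?_
        have hmem : X + vec k e ∈ nbhd X := (mem_nbhd_iff k X _).2 (Or.inr ⟨e, rfl⟩)
        have hiff : X + vec k e + T.D k (modv (T.e k) (X + vec k e)) = X ↔
            (T.P k).dir (e.mv (T.pos k X)) = e.neg := by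
          rw [D_modv, T.pos_add_vec h]
          constructor
          · intro h1
            apply vec_injective k
            rw [vec_neg]
            have h2 : vec k e + vec k ((T.P k).dir (e.mv (T.pos k X))) = 0 := by
              have h3 : X + (vec k e + vec k ((T.P k).dir (e.mv (T.pos k X)))) = X + 0 := by
                rw [← add_assoc, h1, add_zero]
              exact add_left_cancel h3
            exact eq_neg_of_add_eq_zero_right h2
          · intro h1
            rw [h1, vec_neg, add_neg_cancel_right]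
        by_cases h1 : (T.P k).dir (e.mv (T.pos k X)) = e.neg
        · rw [if_pos h1]
          by_cases h2 : T.W k (modv (T.e k) (X + vec k e)) n = 0
          · rw [Set.indicator_of_notMem (fun h3 => h3.2.1 h2)]
            rw [W_modv, T.pos_add_vec h] at h2
            exact h2
          · rw [Set.indicator_of_mem (by exact ⟨hmem, h2, hiff.2 h1⟩), W_modv, T.pos_add_vec h]
        · rw [if_neg h1, Set.indicator_of_notMem (fun h3 => h1 (hiff.1 h3.2.2)),
            ENNReal.ofReal_zero]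
      · intro e _
        split_ifs
        · exact (T.P k).nonneg _ _
        · exact le_rfl
    · intro e _ f _ hef
      exact vec_injective k (add_left_cancel hef)
  · intro Y hY
    rw [Set.indicator_of_notMem]
    rintro ⟨h1, h2, h3⟩
    apply hY
    rcases (mem_nbhd_iff k X Y).1 h1 with rfl | ⟨e, rfl⟩
    · exfalso
      have h4 := dist₁_vec k Y ((T.P k).dir (T.pos k Y))
      rw [D_modv] at h3
      rw [h3, dist₁_self] at h4
      omega
    · exact Finset.mem_image.2 ⟨e, Finset.mem_univ _, rfl⟩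

/-- The sequence of periodic patterns of a tower. -/
noncomputable def levels : Levels 3 where
  e := T.e
  b k := T.e (k + 1)
  W := T.W
  D := T.D
  bad := T.bad
  stable k X h := by
    rw [not_bad_iff] at h
    obtain ⟨h1, h2, h3, h4, h5, h6, -⟩ := h
    constructor
    · funext n
      rw [W_modv, W_modv, T.phi_succ h1 h2 h3 (by omega) ⟨h5, h6⟩, ← pos_succ]
    · rw [D_modv, D_modv, T.dir_succ h1 h2 h3 (by omega) ⟨h5, h6⟩, ← pos_succ, vec_rot]
  adj k X n _ _ := dist₁_vec k X _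
  max k X n hX hne Y hY hYne := by
    have h := (T.not_bad_iff k X).1 (hX X (Flow.mem_nbhd_self X))
    rw [W_modv] at hne
    have hp : 0 < (T.P k).φ (T.pos k X) n := by
      by_contra h1
      exact hne (ENNReal.ofReal_eq_zero.2 (not_lt.1 h1))
    have h2 := T.real_max h hp hY hYne
    rw [W_modv, W_modv, D_modv]
    exact (ENNReal.ofReal_lt_ofReal_iff (lt_of_le_of_lt ((T.P k).nonneg _ _) h2)).2 h2
  sum k X n hX := T.W_sum (fun Y hY => (T.not_bad_iff k Y).1 (hX Y hY)) n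
  height k X _ := ⟨(T.P k).h + 1, by
    rw [W_modv, (T.P k).fin _ _ (by omega), ENNReal.ofReal_zero]⟩

/-- The position of the site `x` in its cell of level `k`, seen from `ξ`. -/
noncomputable def posAt (k : ℕ) (ξ : Odo 3) (x : Site 3) : V := own k (Levels.at' (T.e k) ξ x)

lemma amt_eq (k n : ℕ) (ξ : Odo 3) (x : Site 3) :
    T.levels.amt k n ξ x = ENNReal.ofReal ((T.P k).φ (T.posAt k ξ x) n) := rfl

lemma badAt_iff (k : ℕ) (ξ : Odo 3) (x : Site 3) :
    ¬ T.levels.badAt k ξ x ↔ T.Ok k (T.posAt (k + 1) ξ x) := not_not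

/-- Finitely many levels look like an integer point. -/
lemma posAt_rep (k : ℕ) (ξ : Odo 3) : ∃ h : Site 3, ∀ x : Site 3,
    T.posAt k ξ x = T.pos k (h + x) ∧ T.posAt (k + 1) ξ x = T.pos (k + 1) (h + x) := by
  obtain ⟨h, hh⟩ := T.levels.exists_rep k ξ
  exact ⟨h, fun x => ⟨congrArg (own k) (hh x).1, congrArg (own (k + 1)) (hh x).2.1⟩⟩

/-- The difference of own coordinates. -/
def sh (v w : V) : V := (v.1 + w.1, v.2.1 + w.2.1, v.2.2 + w.2.2)

/-- A site in the cell of the origin that carries resource, one level up. -/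
lemma same_step {k : ℕ} {ξ : Odo 3} {v : Site 3} (h0 : T.Ok k (T.posAt (k + 1) ξ 0))
    (hsame : T.posAt k ξ v = sh (T.posAt k ξ 0) (own k v))
    (hpos : 0 < (T.P k).φ (T.posAt k ξ v) 0) :
    T.posAt (k + 1) ξ v = sh (T.posAt (k + 1) ξ 0) (own (k + 1) v) ∧
      0 < (T.P (k + 1)).φ (T.posAt (k + 1) ξ v) 0 := by
  obtain ⟨h, hh⟩ := T.posAt_rep k ξ
  obtain ⟨hv1, hv2⟩ := hh v
  obtain ⟨hz1, hz2⟩ := hh 0
  rw [add_zero] at hz1 hz2
  rw [hz2] at h0 ⊢
  rw [hv1, hz1] at hsame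
  rw [hv1] at hpos
  rw [hv2]
  have hp1 := T.pos_succ k h
  have hp2 := T.pos_succ k (h + v)
  rw [hp1, hp2] at hsame
  rw [hp2] at hpos
  obtain ⟨g1, g2, g3, g4, g5, g6, g7, g8, g9, g10⟩ := h0
  have hsupp := (T.P k).supp _ _ _ _ hpos
  -- coordinates
  have hown : own (k + 1) v = ((own k v).2.2, (own k v).1, (own k v).2.1) := own_succ k v
  have hadd : ∀ j, own j (h + v) = sh (own j h) (own j v) := fun j => rfl
  have e1 := T.pos_eq (k + 1) h
  have e2 := T.pos_eq (k + 1) (h + v)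
  rw [hadd] at e2
  have hb := (T.P k).hb
  have hc := (T.P k).hc
  have hτ := (T.P k).hτ
  have hx0 := (T.st k).hx0
  have hx1 := (T.st k).hx1
  have hx0' := (T.st k).hx0'
  have hfit := (T.st k).fit'
  have hfit0 := (T.P k).fit
  have hcb : 0 < (T.P k).c * (T.P k).b := by positivity
  have hcb1 : 0 < (T.P k).c * ((T.P k).b + 1) := by positivity
  have hcba : 0 < (T.P k).c * (T.P k).b * ((T.P k).a + 1) := by
    have : 0 < (T.P k).a + 1 := by omega
    positivity
  have hbs := T.b_succ k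
  have hcs := T.c_succ k
  have has := T.a_succ k
  generalize T.pos (k + 1) h = p at *
  generalize T.pos (k + 1) (h + v) = q at *
  obtain ⟨X, Y, Z⟩ := p
  obtain ⟨X', Y', Z'⟩ := q
  generalize own (k + 1) h = u at *
  rw [hown] at e2 ⊢
  generalize own k v = w at *
  obtain ⟨u1, u2, u3⟩ := u
  obtain ⟨w1, w2, w3⟩ := w
  simp only [sh, Prod.mk.injEq] at hsame e1 e2 hsupp hpos g1 g2 g3 g4 g5 g6 g7 g8 g9 g10 ⊢
  rw [hbs, hcs, has] at e1 e2
  obtain ⟨s1, s2, s3⟩ := hsame
  obtain ⟨e11, e12, e13⟩ := e1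
  obtain ⟨e21, e22, e23⟩ := e2
  obtain ⟨f1, f2, f3, f4, f5, f6⟩ := hsupp
  generalize haa : (T.P k).a = a at *
  generalize htt : (T.P k).τ = τ at *
  generalize hbb : (T.P k).b = b at *
  generalize hcc : (T.P k).c = c at *
  generalize (T.st k).a' = a' at *
  generalize hxx0 : (T.st k).x0 = x0 at *
  generalize hxx1 : (T.st k).x1 = x1 at *
  have dX := Int.emod_add_mul_ediv X c
  have dZ := Int.emod_add_mul_ediv Z b
  have dx0 := Int.emod_add_mul_ediv x0 c
  have dx1 := Int.emod_add_mul_ediv x1 c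
  have i1 : x0 / c ≤ X / c := Int.ediv_le_ediv (by omega) g1
  have i2 : X / c < x1 / c := by
    by_contra hcon
    have : c * (x1 / c) ≤ c * (X / c) := mul_le_mul_of_nonneg_left (by omega) (by omega)
    have := Int.emod_nonneg X (show c ≠ 0 by omega)
    omega
  have i3 : c * (x0 / c) ≤ c * (X / c) := mul_le_mul_of_nonneg_left i1 (by omega)
  have i4 : c * (X / c) + c ≤ c * (x1 / c) := by nlinarith
  have i5 : b * (Z / b) ≤ b * (c - 2) := mul_le_mul_of_nonneg_left g6 (by omega)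
  have i6 : b * 2 ≤ b * (Z / b) := mul_le_mul_of_nonneg_left g5 (by omega)
  have i7 : b * (c - 2) + 2 * b = c * b := by ring
  have j1 : X' = X + w3 := by
    rw [e21]
    refine emod_add_aux e11.symm ?_ ?_
    · omega
    · omega
  have j2 : Y' = Y + w1 := s1
  have j3 : Z' = Z + w2 := by
    rw [e23]
    refine emod_add_aux e13.symm ?_ ?_
    · omega
    · omega
  refine ⟨⟨j1, j2, j3⟩, ?_⟩
  have dZ' := Int.emod_add_mul_ediv Z' b
  have j4 : Z' / b = Z / b := by
    have : b * (Z' / b) = b * (Z / b) := by omega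
    exact mul_left_cancel₀ (by omega) this
  rw [T.phi_succ (v := (X', Y', Z')) (by rw [hxx0]; show x0 ≤ X'; omega)
    (by rw [hxx1]; show X' < x1; omega) (by rw [htt]; show τ ≤ Y'; omega)
    (by rw [haa]; show Y' < a; omega)
    (by rw [hbb, hcc]; show 2 ≤ Z' / b ∧ Z' / b ≤ c - 2; omega)]
  rw [hbb, hcc]
  exact hpos

/-- A good point has a site with resource. -/
lemma exists_pos {ξ : Odo 3} (hξ : ξ ∈ T.levels.good) : ∃ x, (T.levels.flow ξ).c 0 x ≠ 0 := by
  obtain ⟨K, hK⟩ := hξ 0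
  -- the root of the pattern in the cell of the origin at level `K`
  let p : V := T.posAt K ξ 0
  let w : Fin 3 → ℤ := ![(T.P K).τ - p.1, 0 - p.2.1, 0 - p.2.2]
  let v : Site 3 := fun a => w ((s ^ K)⁻¹ a)
  have hv : own K v = (w 0, w 1, w 2) := by
    simp only [own, v, inv_s]
  have hbase : T.posAt K ξ v = ((T.P K).τ, 0, 0) := by
    obtain ⟨h, hh⟩ := T.posAt_rep K ξ
    have hp : p = T.pos K h := by
      have := (hh 0).1
      rwa [add_zero] at this
    rw [(hh v).1, pos_eq]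
    have hadd : own K (h + v) = sh (own K h) (own K v) := rfl
    rw [hadd, hv]
    have hτ := (T.P K).hτ
    have hc := (T.P K).hc
    have hb := (T.P K).hb
    have hfit := (T.P K).fit
    have hcb1 : 0 < (T.P K).c * ((T.P K).b + 1) := by positivity
    have e := T.pos_eq K h
    rw [← hp] at e
    have w0 : w 0 = (T.P K).τ - p.1 := rfl
    have w1 : w 1 = 0 - p.2.1 := rfl
    have w2 : w 2 = 0 - p.2.2 := rfl
    clear_value p
    generalize own K h = u at *
    obtain ⟨u1, u2, u3⟩ := u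
    obtain ⟨p1, p2, p3⟩ := p
    simp only [sh, Prod.mk.injEq] at e w0 w1 w2 ⊢
    obtain ⟨e1, e2, e3⟩ := e
    refine ⟨?_, ?_, ?_⟩
    · rw [emod_add_aux e1.symm (by omega) (by omega)]; omega
    · rw [emod_add_aux e2.symm (by omega) (by omega)]; omega
    · rw [emod_add_aux e3.symm (by omega) (by omega)]; omega
  have key : ∀ k ≥ K, T.posAt k ξ v = sh (T.posAt k ξ 0) (own k v) ∧
      0 < (T.P k).φ (T.posAt k ξ v) 0 := by
    intro k hk
    induction k, hk using Nat.le_induction with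
    | base =>
      constructor
      · rw [hbase, hv]
        show _ = (p.1 + ((T.P K).τ - p.1), p.2.1 + (0 - p.2.1), p.2.2 + (0 - p.2.2))
        congr 1
        · ring
        · congr 1 <;> ring
      · rw [hbase, (T.P K).root]
        exact (T.P K).sd.pos 0 (Nat.zero_le _)
    | succ k hk ih =>
      exact T.same_step ((T.badAt_iff k ξ 0).1 (hK k hk)) ih.1 ih.2
  obtain ⟨K', hK'⟩ := hξ v
  refine ⟨v, ?_⟩
  have h1 := congrFun (T.levels.flow_c 0 v) ξ
  have h2 : ∀ k ≥ Nat.max K K', ¬ T.levels.badAt k ξ v := fun k hk =>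
    hK' k (le_trans (le_max_right _ _) hk)
  rw [h1, Set.indicator_of_mem hξ, T.levels.amtLim_eq h2, amt_eq]
  have h3 := (key (Nat.max K K') (le_max_left _ _)).2
  exact (ENNReal.ofReal_pos.2 h3).ne'

/-- **The theorem for a tower**, given the two numerical bounds. -/
theorem final (hbad : ∑' k, T.levels.badProb k ≠ ∞)
    (hint : ∃ B : ℝ≥0∞, B ≠ ∞ ∧
      ∀ k, ∫⁻ ξ, T.levels.W k (resv (T.levels.e k) ξ) 0 ∂odo 3 ≤ B) :
    ∃ (Ω : Type) (_ : MeasurableSpace Ω) (P : Measure Ω) (C : ℕ → Ω → Site 3 → ℝ≥0∞)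
      (v : ℕ → Ω → Site 3 → Site 3), IsProbabilityMeasure P ∧ IsClustering P C v ∧
        TranslationInvariant P (C 0) ∧ HypothesisH P C v ∧ (∀ x, ∫⁻ ω, C 0 ω x ∂P < ∞) ∧
          ∀ᵐ ω ∂P, ∀ x, ∃ N, ∀ n ≥ N, C n ω x = 0 := by
  obtain ⟨B, hB, h⟩ := hint
  refine T.levels.exists_clustering_of_pos (T.levels.pos_of_ae_exists ?_) hB h
  filter_upwards [T.levels.ae_good hbad] with ξ hξ
  exact T.exists_pos hξ

end Tower

end Pool.Agent.Helper99.Clust
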