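import Mathlib

/-!
# The distributed clustering dynamics on `ℤ^d`: definitions (MP_81329c_pr)

* `Site d = ℤ^d`, `dist₁` is the `ℓ¹` distance, `lattice d` the nearest-neighbour graph;
* `nbhd x = N(x)`, `maximisers c x = M(x)`, `move c v = a`, `step c v` is one step of the dynamics;
* `IsClustering P C v`: on the probability space `(Ω, P)`, `(C_n)` is the clustering dynamics driven
  by the choices `v_n(x)`; given the initial configuration and all earlier choices, the `v_n(x)`,
  `x ∈ ℤ^d`, are independent and uniform on `M_n(x)`;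
* `TranslationInvariant`, `OneEnded`, `IsParent`, `HypothesisH`: as in the problem.
-/

open MeasureTheory Set
open scoped ENNReal

namespace Pool.Agent.Helper99.Clust

/-- The sites of `ℤ^d`. -/
abbrev Site (d : ℕ) : Type := Fin d → ℤ

variable {d : ℕ}

/-- The `ℓ¹` distance on `ℤ^d`. -/
def dist₁ (x y : Site d) : ℤ := ∑ i, |x i - y i|

theorem dist₁_comm (x y : Site d) : dist₁ x y = dist₁ y x := by
  unfold dist₁
  exact Finset.sum_congr rfl fun i _ => abs_sub_comm _ _

theorem dist₁_self (x : Site d) : dist₁ x x = 0 := by simp [dist₁]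

/-- The graph `ℤ^d`: edges join sites at `ℓ¹` distance `1`. -/
def lattice (d : ℕ) : SimpleGraph (Site d) where
  Adj x y := dist₁ x y = 1
  symm := ⟨fun x y h => by rwa [dist₁_comm]⟩
  loopless := ⟨fun x h => by rw [dist₁_self] at h; omega⟩

/-- The closed neighbourhood `N(x) = {y : |x - y|₁ ≤ 1}`. -/
def nbhd (x : Site d) : Set (Site d) := {y | dist₁ x y ≤ 1}

/-- `M(x)`: the set of the `y ∈ N(x)` at which `c` attains its maximum over `N(x)`. -/
def maximisers (c : Site d → ℝ≥0∞) (x : Site d) : Set (Site d) :=
  {y | y ∈ nbhd x ∧ ∀ z ∈ nbhd x, c z ≤ c y}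

open Classical in
/-- The move of the resource at `x`: `a(x) = x` if `c(x) = 0` and `a(x) = v(x)` if `c(x) > 0`. -/
noncomputable def move (c : Site d → ℝ≥0∞) (v : Site d → Site d) (x : Site d) : Site d :=
  if c x = 0 then x else v x

/-- One step of the dynamics: the new amount at `x` is the sum of the `c(y)` over the `y` with
`a(y) = x`. -/
noncomputable def step (c : Site d → ℝ≥0∞) (v : Site d → Site d) (x : Site d) : ℝ≥0∞ :=
  ∑' y : {y : Site d // move c v y = x}, c y

open Classical in
/-- The uniform distribution on `M(x)`: the mass of `y`. -/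
noncomputable def uniformMass (c : Site d → ℝ≥0∞) (x y : Site d) : ℝ≥0∞ :=
  if y ∈ maximisers c x then ((maximisers c x).ncard : ℝ≥0∞)⁻¹ else 0

section Random

variable {Ω : Type*} [MeasurableSpace Ω]

/-- The σ-algebra of the initial configuration and of the choices `v_k(x)`, `k < n`. -/
@[reducible] def past (C : ℕ → Ω → Site d → ℝ≥0∞) (v : ℕ → Ω → Site d → Site d) (n : ℕ) :
    MeasurableSpace Ω :=
  (⨆ x : Site d, MeasurableSpace.comap (fun ω => C 0 ω x) inferInstance) ⊔
    ⨆ k : ℕ, ⨆ _ : k < n, ⨆ x : Site d, MeasurableSpace.comap (fun ω => v k ω x) inferInstance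

/-- `(C_n)` is the clustering dynamics with choices `(v_n)` on the probability space `(Ω, P)`. -/
structure IsClustering (P : Measure Ω) (C : ℕ → Ω → Site d → ℝ≥0∞)
    (v : ℕ → Ω → Site d → Site d) : Prop where
  /-- the initial configuration is random -/
  measurable_initial : ∀ x, Measurable fun ω => C 0 ω x
  /-- the choices are random variables -/
  measurable_choice : ∀ n x, Measurable fun ω => v n ω x
  /-- the dynamics -/
  dynamics : ∀ n ω, C (n + 1) ω = step (C n ω) (v n ω)
  /-- given the past, the `v_n(x)` are independent and uniform on `M_n(x)` -/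
  uniform : ∀ (n : ℕ) (A : Finset (Site d)) (w : Site d → Site d) (E : Set Ω),
    MeasurableSet[past C v n] E →
      P (E ∩ {ω | ∀ x ∈ A, v n ω x = w x}) =
        ∫⁻ ω in E, ∏ x ∈ A, uniformMass (C n ω) x (w x) ∂P

/-- The law of the random family `C` is invariant under all lattice translations. -/
def TranslationInvariant (P : Measure Ω) (C : Ω → Site d → ℝ≥0∞) : Prop :=
  ∀ z : Site d, P.map (fun ω x => C ω (x + z)) = P.map (fun ω x => C ω x)

end Random

/-- `p` is an infinite self-avoiding path of `F` started at `x`. -/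
def IsRay (F : (lattice d).Subgraph) (x : Site d) (p : ℕ → Site d) : Prop :=
  p 0 = x ∧ Function.Injective p ∧ ∀ n, F.Adj (p n) (p (n + 1))

/-- All components of `F` are one-ended: every vertex starts exactly one infinite self-avoiding
path. -/
def OneEnded (F : (lattice d).Subgraph) : Prop := ∀ x ∈ F.verts, ∃! p, IsRay F x p

/-- `z` is the parent of `y` in `F`: the second vertex of the infinite self-avoiding path of `F`
started at `y`. -/
def IsParent (F : (lattice d).Subgraph) (y z : Site d) : Prop := ∃ p, IsRay F y p ∧ p 1 = z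

/-- Hypothesis (H). -/
structure HypothesisH {Ω : Type*} [MeasurableSpace Ω] (P : Measure Ω)
    (C : ℕ → Ω → Site d → ℝ≥0∞) (v : ℕ → Ω → Site d → Site d) : Prop where
  /-- `C_0(0) > 0` with positive probability -/
  pos : 0 < P {ω | 0 < C 0 ω 0}
  /-- the random forest -/
  forest : ∃ F : Ω → (lattice d).Subgraph,
    (∀ x, MeasurableSet {ω | x ∈ (F ω).verts}) ∧ (∀ x y, MeasurableSet {ω | (F ω).Adj x y}) ∧
      ∀ᵐ ω ∂P, (F ω).coe.IsAcyclic ∧ OneEnded (F ω) ∧ {x | 0 < C 0 ω x} = (F ω).verts ∧
        ∀ n x, 0 < C n ω x → IsParent (F ω) x (move (C n ω) (v n ω) x)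

end Pool.Agent.Helper99.Clust
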