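import Pool.Agent.Helper99.Clust.Defs

/-!
# The deterministic part: from a flow to hypothesis (H)

A `Flow` consists of the amounts `c n x` and of a parent map `par` such that
* `R1`: where `c n x ≠ 0`, the parent is a neighbour of `x` and the strict unique maximiser of
  `c n` on `N(x)`;
* `R2`: `c (n+1) x` is the sum of the `c n y` over the `y` with `c n y ≠ 0` and `par y = x`;
* `R3`: `c n x = 0` for some `n`.
-/

open MeasureTheory Set
open scoped ENNReal

namespace Pool.Agent.Helper99.Clust

variable {d : ℕ}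

/-- The data of a flow on `ℤ^d` along a parent map. -/
structure Flow (d : ℕ) where
  /-- the amounts -/
  c : ℕ → Site d → ℝ≥0∞
  /-- the parent map -/
  par : Site d → Site d
  /-- the parent is a neighbour -/
  adj : ∀ n x, c n x ≠ 0 → dist₁ x (par x) = 1
  /-- the parent beats everybody else -/
  max : ∀ n x, c n x ≠ 0 → ∀ y ∈ nbhd x, y ≠ par x → c n y < c n (par x)
  /-- resource moves to the parent -/
  sum : ∀ n x, c (n + 1) x = ∑' y : {y : Site d // c n y ≠ 0 ∧ par y = x}, c n y
  /-- every site has finite height -/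
  height : ∀ x, ∃ n, c n x = 0

namespace Flow

variable (f : Flow d)

lemma mem_nbhd_self (x : Site d) : x ∈ nbhd x := by
  show dist₁ x x ≤ 1
  rw [dist₁_self]; norm_num

lemma par_mem_nbhd {n : ℕ} {x : Site d} (h : f.c n x ≠ 0) : f.par x ∈ nbhd x := by
  show dist₁ x _ ≤ 1
  rw [f.adj n x h]

lemma par_ne {n : ℕ} {x : Site d} (h : f.c n x ≠ 0) : f.par x ≠ x := by
  intro h2
  have := f.adj n x h
  rw [h2, dist₁_self] at this
  omega

lemma lt_par {n : ℕ} {x : Site d} (h : f.c n x ≠ 0) : f.c n x < f.c n (f.par x) :=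
  f.max n x h x (mem_nbhd_self x) (f.par_ne h).symm

lemma par_ne_zero {n : ℕ} {x : Site d} (h : f.c n x ≠ 0) : f.c n (f.par x) ≠ 0 :=
  (bot_le.trans_lt (f.lt_par h)).ne'

/-- The maximisers are unique. -/
lemma maximisers_eq {n : ℕ} {x : Site d} (h : f.c n x ≠ 0) :
    maximisers (f.c n) x = {f.par x} := by
  ext y
  constructor
  · rintro ⟨h1, h2⟩
    by_contra h3
    exact absurd (h2 _ (f.par_mem_nbhd h)) (not_le.2 (f.max n x h y h1 h3))
  · rintro rfl
    refine ⟨f.par_mem_nbhd h, fun z hz => ?_⟩
    by_cases h3 : z = f.par x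
    · rw [h3]
    · exact (f.max n x h z hz h3).le

/-- A site that holds resource at time `n + 1` is the parent of a site that holds resource at
time `n`. -/
lemma exists_child {n : ℕ} {x : Site d} (h : f.c (n + 1) x ≠ 0) :
    ∃ y, f.c n y ≠ 0 ∧ f.par y = x := by
  rw [f.sum] at h
  by_contra h2
  push Not at h2
  apply h
  rw [ENNReal.tsum_eq_zero]
  rintro ⟨y, hy⟩
  exact absurd hy.2 (h2 y hy.1)

lemma child_ne_zero {n : ℕ} {y : Site d} (h : f.c n y ≠ 0) : f.c (n + 1) (f.par y) ≠ 0 := by
  rw [f.sum]
  intro h2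
  rw [ENNReal.tsum_eq_zero] at h2
  exact h (h2 ⟨y, h, rfl⟩)

/-- Sites that ever hold resource hold some at the start. -/
lemma zero_ne_zero {n : ℕ} {x : Site d} (h : f.c n x ≠ 0) : f.c 0 x ≠ 0 := by
  induction n generalizing x with
  | zero => exact h
  | succ n ih =>
    obtain ⟨y, hy, rfl⟩ := f.exists_child h
    exact f.par_ne_zero (ih hy)

/-- From the time `c n x = 0` on, the site `x` is empty. -/
lemma eq_zero_of_le {n m : ℕ} {x : Site d} (h : f.c n x = 0) (hnm : n ≤ m) : f.c m x = 0 := by
  have key : ∀ n x, f.c n x = 0 → f.c (n + 1) x = 0 := by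
    intro n
    induction n with
    | zero =>
      intro x hx
      by_contra h2
      exact f.zero_ne_zero h2 hx
    | succ n ih =>
      intro x hx
      by_contra h2
      obtain ⟨y, hy, rfl⟩ := f.exists_child h2
      have h3 : f.c n y ≠ 0 := fun h4 => hy (ih y h4)
      exact f.child_ne_zero h3 hx
  induction hnm with
  | refl => exact h
  | step _ ih => exact key _ _ ih

/-- Every choice of maximisers moves the resource to the parents. -/
lemma move_eq {n : ℕ} {x : Site d} {v : Site d → Site d} (hv : v x ∈ maximisers (f.c n) x)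
    (h : f.c n x ≠ 0) : move (f.c n) v x = f.par x := by
  rw [move, if_neg h]
  rw [f.maximisers_eq h] at hv
  exact hv

/-- For every choice of maximisers the dynamics is the flow. -/
lemma step_eq {n : ℕ} {v : Site d → Site d} (hv : ∀ x, v x ∈ maximisers (f.c n) x) :
    step (f.c n) v = f.c (n + 1) := by
  funext x
  rw [f.sum, step]
  change (∑' y : ({y | move (f.c n) v y = x} : Set (Site d)), f.c n y) =
    ∑' y : ({y | f.c n y ≠ 0 ∧ f.par y = x} : Set (Site d)), f.c n y
  rw [tsum_subtype (f := f.c n) {y | move (f.c n) v y = x},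
    tsum_subtype (f := f.c n) {y | f.c n y ≠ 0 ∧ f.par y = x}]
  refine tsum_congr fun y => ?_
  by_cases h : f.c n y = 0
  · rw [Set.indicator_of_notMem (s := {y | f.c n y ≠ 0 ∧ f.par y = x}) (fun h2 => h2.1 h)]
    by_cases h2 : y ∈ {y | move (f.c n) v y = x}
    · rw [Set.indicator_of_mem h2, h]
    · rw [Set.indicator_of_notMem h2]
  · by_cases h2 : f.par y = x
    · rw [Set.indicator_of_mem (s := {y | f.c n y ≠ 0 ∧ f.par y = x}) ⟨h, h2⟩,
        Set.indicator_of_mem]
      show move (f.c n) v y = x
      rw [f.move_eq (hv y) h, h2]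
    · rw [Set.indicator_of_notMem (s := {y | f.c n y ≠ 0 ∧ f.par y = x}) (fun h3 => h2 h3.2),
        Set.indicator_of_notMem]
      intro h3
      apply h2
      have h4 : move (f.c n) v y = x := h3
      rwa [f.move_eq (hv y) h] at h4

/-- The forest of a flow. -/
def forest : (lattice d).Subgraph where
  verts := {x | f.c 0 x ≠ 0}
  Adj x y := f.c 0 x ≠ 0 ∧ f.c 0 y ≠ 0 ∧ (f.par x = y ∨ f.par y = x)
  adj_sub := by
    rintro x y ⟨h1, h2, h3 | h3⟩
    · subst h3; exact f.adj 0 x h1
    · subst h3
      show dist₁ _ _ = 1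
      rw [dist₁_comm]; exact f.adj 0 y h2
  edge_vert := fun h => h.1
  symm := ⟨fun x y h => ⟨h.2.1, h.1, h.2.2.symm⟩⟩

lemma forest_verts : f.forest.verts = {x | f.c 0 x ≠ 0} := rfl

lemma forest_adj (x y : Site d) : f.forest.Adj x y ↔
    f.c 0 x ≠ 0 ∧ f.c 0 y ≠ 0 ∧ (f.par x = y ∨ f.par y = x) := Iff.rfl

/-- Of the two ends of an edge, the one with less resource has the other as its parent. -/
lemma par_eq_of_adj {x y : Site d} (h : f.forest.Adj x y) (h2 : f.c 0 x ≤ f.c 0 y) :
    f.par x = y := by
  rcases h.2.2 with h3 | h3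
  · exact h3
  · exfalso
    have := f.lt_par h.2.1
    rw [h3] at this
    exact absurd h2 (not_le.2 this)

lemma forest_acyclic : f.forest.coe.IsAcyclic := by
  intro v w hw
  -- a vertex of the cycle with the least amount
  obtain ⟨m, hm, hmin⟩ := w.support.toFinset.exists_min_image
    (fun x : f.forest.verts => f.c 0 x) ⟨v, by simp⟩
  have hm' : m ∈ w.support := by simpa using hm
  have hc := hw.rotate hm'
  have hsupp : ∀ x ∈ (w.rotate m hm').support, f.c 0 m ≤ f.c 0 (x : f.forest.verts) := by
    intro x hx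
    apply hmin
    rw [List.mem_toFinset]
    exact (w.mem_support_rotate_iff m hm').1 hx
  set c := w.rotate m hm' with hcdef
  have hn : ¬ c.Nil := hc.not_nil
  have h1 : f.forest.Adj m c.snd := c.adj_snd hn
  have h2 : f.forest.Adj c.penultimate m := c.adj_penultimate hn
  have h3 : f.par m = c.snd := f.par_eq_of_adj h1 (hsupp _ (c.getVert_mem_support 1))
  have h4 : f.par m = c.penultimate :=
    f.par_eq_of_adj h2.symm (hsupp _ (c.getVert_mem_support _))
  exact hc.snd_ne_penultimate (Subtype.ext (h3.symm.trans h4))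

/-- The ray of ancestors. -/
def ray (x : Site d) (n : ℕ) : Site d := f.par^[n] x

lemma ray_zero (x : Site d) : f.ray x 0 = x := rfl

lemma ray_succ (x : Site d) (n : ℕ) : f.ray x (n + 1) = f.par (f.ray x n) :=
  Function.iterate_succ_apply' _ _ _

lemma ray_ne_zero {x : Site d} (h : f.c 0 x ≠ 0) (n : ℕ) : f.c 0 (f.ray x n) ≠ 0 := by
  induction n with
  | zero => exact h
  | succ n ih => rw [ray_succ]; exact f.par_ne_zero ih

lemma isRay_ray {x : Site d} (h : f.c 0 x ≠ 0) : IsRay f.forest x (f.ray x) := by
  refine ⟨rfl, ?_, fun n => ?_⟩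
  · have hmono : StrictMono fun n => f.c 0 (f.ray x n) := by
      refine strictMono_nat_of_lt_succ fun n => ?_
      rw [ray_succ]
      exact f.lt_par (f.ray_ne_zero h n)
    intro a b hab
    exact hmono.injective (congrArg (f.c 0) hab)
  · rw [forest_adj]
    exact ⟨f.ray_ne_zero h n, f.ray_ne_zero h (n + 1), Or.inl (f.ray_succ x n).symm⟩

/-- Descending paths are finite. -/
lemma not_descending {p : ℕ → Site d} (h : ∀ n, f.c 0 (p n) ≠ 0)
    (hp : ∀ n, f.par (p (n + 1)) = p n) : False := by
  have key : ∀ k n, f.c k (p n) ≠ 0 := by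
    intro k
    induction k with
    | zero => exact h
    | succ k ih =>
      intro n
      rw [← hp n]
      exact f.child_ne_zero (ih (n + 1))
  obtain ⟨k, hk⟩ := f.height (p 0)
  exact key k 0 hk

/-- Every ray of the forest is the ray of ancestors. -/
lemma eq_ray {x : Site d} {p : ℕ → Site d} (h : IsRay f.forest x p) : p = f.ray x := by
  obtain ⟨h0, hinj, hadj⟩ := h
  -- every step is an up step
  have key : ∀ n, p (n + 1) = f.par (p n) := by
    intro n
    by_contra h1
    have down : ∀ k, f.par (p (n + k + 1)) = p (n + k) := by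
      intro k
      induction k with
      | zero =>
        rcases (hadj n).2.2 with h2 | h2
        · exact absurd h2.symm h1
        · exact h2
      | succ k ih =>
        rcases (hadj (n + (k + 1))).2.2 with h2 | h2
        · exfalso
          have h3 : p (n + k) = p (n + (k + 1) + 1) := by
            rw [← h2, ← ih, add_assoc]
          have h4 := hinj h3
          omega
        · exact h2
    refine f.not_descending (p := fun k => p (n + k)) (fun k => (hadj (n + k)).1) fun k => ?_
    exact down k
  funext n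
  induction n with
  | zero => rw [h0, ray_zero]
  | succ n ih => rw [key n, ih, ray_succ]

lemma forest_oneEnded : OneEnded f.forest := fun x hx =>
  ⟨f.ray x, f.isRay_ray hx, fun _ hp => f.eq_ray hp⟩

lemma isParent_par {x : Site d} (h : f.c 0 x ≠ 0) : IsParent f.forest x (f.par x) :=
  ⟨f.ray x, f.isRay_ray h, f.ray_succ x 0⟩

/-- At every time all resource moves to the parents. -/
lemma isParent_move {n : ℕ} {x : Site d} {v : Site d → Site d}
    (hv : v x ∈ maximisers (f.c n) x) (h : f.c n x ≠ 0) :
    IsParent f.forest x (move (f.c n) v x) := by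
  rw [f.move_eq hv h]
  exact f.isParent_par (f.zero_ne_zero h)

end Flow

end Pool.Agent.Helper99.Clust
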