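import Pool.Agent.Helper99.Clust.Prob
import Pool.Agent.Helper99.Clust.Haar

/-!
# From periodic finite-level patterns to random flows

A `Levels d` is a sequence of periodic patterns on `ℤ^d` (with periods powers of `3`) that obey the
local rules of a flow at all sites whose closed neighbourhood is not bad, and that stabilise where
they are not bad. If the densities of the bad sites are summable, the limit pattern, seen from a
uniform point of the odometer, is a random flow.
-/

open MeasureTheory Set Filter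
open scoped ENNReal Topology

namespace Pool.Agent.Helper99.Clust

variable {d : ℕ}

/-- Reduction of an integer point modulo `3^(k a)`. -/
def modv (k : Fin d → ℕ) (X : Site d) : Site d := fun a => X a % 3 ^ k a

/-- A sequence of periodic patterns that obey the local rules of a flow. -/
structure Levels (d : ℕ) where
  /-- exponents of the periods of the patterns -/
  e : ℕ → Fin d → ℕ
  /-- exponents of the periods of the bad sets -/
  b : ℕ → Fin d → ℕ
  /-- the amounts: level, residues, time -/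
  W : ℕ → Site d → ℕ → ℝ≥0∞
  /-- the direction of the parent: level, residues -/
  D : ℕ → Site d → Site d
  /-- the bad residues -/
  bad : ℕ → Site d → Prop
  /-- the patterns stabilise -/
  stable : ∀ k X, ¬ bad k (modv (b k) X) →
    W (k + 1) (modv (e (k + 1)) X) = W k (modv (e k) X) ∧
      D (k + 1) (modv (e (k + 1)) X) = D k (modv (e k) X)
  /-- the parent is a neighbour -/
  adj : ∀ k X n, (∀ Y ∈ nbhd X, ¬ bad k (modv (b k) Y)) → W k (modv (e k) X) n ≠ 0 →
    dist₁ X (X + D k (modv (e k) X)) = 1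
  /-- the parent beats everybody else -/
  max : ∀ k X n, (∀ Y ∈ nbhd X, ¬ bad k (modv (b k) Y)) → W k (modv (e k) X) n ≠ 0 →
    ∀ Y ∈ nbhd X, Y ≠ X + D k (modv (e k) X) →
      W k (modv (e k) Y) n < W k (modv (e k) (X + D k (modv (e k) X))) n
  /-- resource moves to the parent -/
  sum : ∀ k X n, (∀ Y ∈ nbhd X, ¬ bad k (modv (b k) Y)) →
    W k (modv (e k) X) (n + 1) =
      ∑' Y : {Y : Site d // Y ∈ nbhd X ∧ W k (modv (e k) Y) n ≠ 0 ∧ Y + D k (modv (e k) Y) = X},
        W k (modv (e k) Y) n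
  /-- heights are finite -/
  height : ∀ k X, ¬ bad k (modv (b k) X) → ∃ n, W k (modv (e k) X) n = 0

/-- The empty flow. -/
def zeroFlow (d : ℕ) : Flow d where
  c _ _ := 0
  par x := x
  adj _ _ h := absurd rfl h
  max _ _ h := absurd rfl h
  sum n x := by simp
  height _ := ⟨0, rfl⟩

namespace Levels

variable (L : Levels d)

/-- The residues of the site `x` at the exponents `k`. -/
noncomputable def at' (k : Fin d → ℕ) (ξ : Odo d) (x : Site d) : Site d := resv k (shift ξ x)

/-- The site `x` is bad at level `k`. -/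
def badAt (k : ℕ) (ξ : Odo d) (x : Site d) : Prop := L.bad k (at' (L.b k) ξ x)

/-- Every site is eventually not bad. -/
def good : Set (Odo d) := {ξ | ∀ x, ∃ K, ∀ k ≥ K, ¬ L.badAt k ξ x}

lemma measurable_at' (k : Fin d → ℕ) (x : Site d) : Measurable fun ξ : Odo d => at' k ξ x :=
  (measurable_resv k).comp (measurePreserving_shift x).measurable

lemma measurableSet_badAt (k : ℕ) (x : Site d) : MeasurableSet {ξ | L.badAt k ξ x} :=
  measurable_at' (L.b k) x (Set.to_countable {r | L.bad k r}).measurableSet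

lemma measurableSet_good : MeasurableSet L.good := by
  have h : L.good = ⋂ x, ⋃ K : ℕ, ⋂ k : ℕ, ⋂ _ : k ≥ K, {ξ | L.badAt k ξ x}ᶜ := by
    ext ξ; simp [good]
  rw [h]
  exact MeasurableSet.iInter fun x => MeasurableSet.iUnion fun K => MeasurableSet.iInter fun k =>
    MeasurableSet.iInter fun _ => (L.measurableSet_badAt k x).compl

lemma at'_shift (k : Fin d → ℕ) (ξ : Odo d) (x z : Site d) :
    at' k (shift ξ z) x = at' k ξ (z + x) := by
  rw [at', at', shift_shift]

lemma badAt_shift (k : ℕ) (ξ : Odo d) (x z : Site d) :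
    L.badAt k (shift ξ z) x ↔ L.badAt k ξ (z + x) := by
  rw [badAt, badAt, at'_shift]

lemma shift_mem_good {ξ : Odo d} {z : Site d} : shift ξ z ∈ L.good ↔ ξ ∈ L.good := by
  constructor
  · intro h x
    obtain ⟨K, hK⟩ := h (x - z)
    refine ⟨K, fun k hk => ?_⟩
    have := hK k hk
    rw [badAt_shift] at this
    simpa using this
  · intro h x
    obtain ⟨K, hK⟩ := h (z + x)
    refine ⟨K, fun k hk => ?_⟩
    rw [badAt_shift]
    exact hK k hk

/-- The probability that the origin is bad at level `k`. -/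
noncomputable def badProb (k : ℕ) : ℝ≥0∞ := odo d {ξ | L.badAt k ξ 0}

lemma measure_badAt (k : ℕ) (x : Site d) : odo d {ξ | L.badAt k ξ x} = L.badProb k := by
  have h : {ξ | L.badAt k ξ x} = (fun ξ => shift ξ x) ⁻¹' {ξ | L.badAt k ξ 0} := by
    ext ξ
    simp only [Set.mem_preimage, Set.mem_ofPred_eq]
    rw [badAt_shift, add_zero]
  rw [h, (measurePreserving_shift x).measure_preimage (L.measurableSet_badAt k 0).nullMeasurableSet,
    badProb]

lemma ae_good (h : ∑' k, L.badProb k ≠ ∞) : ∀ᵐ ξ ∂odo d, ξ ∈ L.good := by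
  have h1 : ∀ x : Site d, ∀ᵐ ξ ∂odo d, ∃ K, ∀ k ≥ K, ¬ L.badAt k ξ x := by
    intro x
    have h2 : ∑' k, odo d {ξ | L.badAt k ξ x} ≠ ∞ := by
      simp_rw [measure_badAt]; exact h
    filter_upwards [ae_eventually_notMem h2] with ξ hξ
    exact eventually_atTop.1 hξ
  exact ae_all_iff.2 h1

/-- The amount at level `k`. -/
noncomputable def amt (k n : ℕ) (ξ : Odo d) (x : Site d) : ℝ≥0∞ := L.W k (at' (L.e k) ξ x) n

/-- The direction at level `k`. -/
noncomputable def dir (k : ℕ) (ξ : Odo d) (x : Site d) : Site d := L.D k (at' (L.e k) ξ x)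

lemma exists_rep (k : ℕ) (ξ : Odo d) : ∃ h : Site d, ∀ x : Site d,
    at' (L.e k) ξ x = modv (L.e k) (h + x) ∧ at' (L.b k) ξ x = modv (L.b k) (h + x) ∧
      at' (L.e (k + 1)) ξ x = modv (L.e (k + 1)) (h + x) := by
  obtain ⟨h, hh⟩ := exists_site ξ (∑ a, (L.e k a + L.b k a + L.e (k + 1) a))
  refine ⟨h, fun x => ⟨?_, ?_, ?_⟩⟩
  · refine hh _ (fun a => ?_) x
    have := Finset.single_le_sum (f := fun a => L.e k a + L.b k a + L.e (k + 1) a)
      (fun i _ => Nat.zero_le _) (Finset.mem_univ a)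
    omega
  · refine hh _ (fun a => ?_) x
    have := Finset.single_le_sum (f := fun a => L.e k a + L.b k a + L.e (k + 1) a)
      (fun i _ => Nat.zero_le _) (Finset.mem_univ a)
    omega
  · refine hh _ (fun a => ?_) x
    have := Finset.single_le_sum (f := fun a => L.e k a + L.b k a + L.e (k + 1) a)
      (fun i _ => Nat.zero_le _) (Finset.mem_univ a)
    omega

lemma stable_succ {k : ℕ} {ξ : Odo d} {x : Site d} (h : ¬ L.badAt k ξ x) :
    (∀ n, L.amt (k + 1) n ξ x = L.amt k n ξ x) ∧ L.dir (k + 1) ξ x = L.dir k ξ x := by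
  obtain ⟨r, hr⟩ := L.exists_rep k ξ
  obtain ⟨h1, h2, h3⟩ := hr x
  rw [badAt, h2] at h
  obtain ⟨h4, h5⟩ := L.stable k _ h
  constructor
  · intro n
    rw [amt, amt, h3, h1, h4]
  · rw [dir, dir, h3, h1, h5]

lemma stable_of_le {K : ℕ} {ξ : Odo d} {x : Site d} (h : ∀ k ≥ K, ¬ L.badAt k ξ x) {k : ℕ}
    (hk : K ≤ k) : (∀ n, L.amt k n ξ x = L.amt K n ξ x) ∧ L.dir k ξ x = L.dir K ξ x := by
  induction hk with
  | refl => exact ⟨fun _ => rfl, rfl⟩
  | step hk ih =>
    obtain ⟨h1, h2⟩ := L.stable_succ (h _ hk)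
    exact ⟨fun n => (h1 n).trans (ih.1 n), h2.trans ih.2⟩

/-- The limit amounts. -/
noncomputable def amtLim (n : ℕ) (ξ : Odo d) (x : Site d) : ℝ≥0∞ :=
  liminf (fun k => L.amt k n ξ x) atTop

open Classical in
/-- The limit directions. -/
noncomputable def dirLim (ξ : Odo d) (x : Site d) : Site d :=
  if h : ∃ v, ∀ᶠ k in atTop, L.dir k ξ x = v then h.choose else 0

lemma amtLim_eq {K : ℕ} {ξ : Odo d} {x : Site d} (h : ∀ k ≥ K, ¬ L.badAt k ξ x) (n : ℕ) :
    L.amtLim n ξ x = L.amt K n ξ x := by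
  have h1 : Tendsto (fun k => L.amt k n ξ x) atTop (𝓝 (L.amt K n ξ x)) := by
    refine tendsto_const_nhds.congr' ?_
    filter_upwards [eventually_ge_atTop K] with k hk
    exact ((L.stable_of_le h hk).1 n).symm
  exact h1.liminf_eq

lemma dirLim_eq {K : ℕ} {ξ : Odo d} {x : Site d} (h : ∀ k ≥ K, ¬ L.badAt k ξ x) :
    L.dirLim ξ x = L.dir K ξ x := by
  have h1 : ∀ᶠ k in atTop, L.dir k ξ x = L.dir K ξ x := by
    filter_upwards [eventually_ge_atTop K] with k hk
    exact (L.stable_of_le h hk).2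
  have h2 : ∃ v, ∀ᶠ k in atTop, L.dir k ξ x = v := ⟨_, h1⟩
  rw [dirLim, dif_pos h2]
  obtain ⟨k, hk1, hk2⟩ := (h1.and h2.choose_spec).exists
  exact hk2.symm.trans hk1

/-- At a good point all sites near `x` are simultaneously stable. -/
lemma exists_level {ξ : Odo d} (hξ : ξ ∈ L.good) (x : Site d) :
    ∃ K, ∀ y ∈ nbhd x, ∀ k ≥ K, ¬ L.badAt k ξ y := by
  choose K hK using hξ
  refine ⟨(nbhd_finite x).toFinset.sup K, fun y hy k hk => hK y k (le_trans ?_ hk)⟩
  exact Finset.le_sup (f := K) ((nbhd_finite x).mem_toFinset.2 hy)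

lemma dist₁_add_left (h x y : Site d) : dist₁ (h + x) (h + y) = dist₁ x y := by
  unfold dist₁
  refine Finset.sum_congr rfl fun i _ => ?_
  simp

lemma mem_nbhd_add {h x y : Site d} : h + y ∈ nbhd (h + x) ↔ y ∈ nbhd x := by
  show dist₁ _ _ ≤ 1 ↔ dist₁ _ _ ≤ 1
  rw [dist₁_add_left]

/-- The limit flow at a good point. -/
noncomputable def goodFlow {ξ : Odo d} (hξ : ξ ∈ L.good) : Flow d where
  c n x := L.amtLim n ξ x
  par x := x + L.dirLim ξ x
  adj n x hx := by
    obtain ⟨K, hK⟩ := L.exists_level hξ x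
    have hx' := hK x (Flow.mem_nbhd_self x)
    rw [L.amtLim_eq hx'] at hx
    rw [L.dirLim_eq hx']
    obtain ⟨h, hh⟩ := L.exists_rep K ξ
    have h1 : ∀ Y ∈ nbhd (h + x), ¬ L.bad K (modv (L.b K) Y) := by
      intro Y hY
      have h2 := hK (Y - h) (by rw [← mem_nbhd_add (h := h)]; simpa using hY) K le_rfl
      rw [badAt, (hh _).2.1] at h2
      simpa using h2
    have h3 := L.adj K (h + x) n h1 (by rw [← (hh x).1]; exact hx)
    rw [← (hh x).1, add_assoc, dist₁_add_left] at h3
    exact h3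
  max n x hx y hy hne := by
    obtain ⟨K, hK⟩ := L.exists_level hξ x
    have hx' := hK x (Flow.mem_nbhd_self x)
    rw [L.amtLim_eq hx'] at hx
    rw [L.dirLim_eq hx'] at hne ⊢
    obtain ⟨h, hh⟩ := L.exists_rep K ξ
    have h1 : ∀ Y ∈ nbhd (h + x), ¬ L.bad K (modv (L.b K) Y) := by
      intro Y hY
      have h2 := hK (Y - h) (by rw [← mem_nbhd_add (h := h)]; simpa using hY) K le_rfl
      rw [badAt, (hh _).2.1] at h2
      simpa using h2
    have hx2 : L.W K (modv (L.e K) (h + x)) n ≠ 0 := by rw [← (hh x).1]; exact hx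
    have hadj := L.adj K (h + x) n h1 hx2
    have h3 := L.max K (h + x) n h1 hx2 (h + y) (mem_nbhd_add.2 hy) (by
      intro h4
      apply hne
      rw [← (hh x).1, add_assoc] at h4
      exact add_left_cancel h4)
    rw [← (hh x).1, add_assoc, dist₁_add_left] at hadj
    have hpar : x + L.dir K ξ x ∈ nbhd x := by
      show dist₁ _ _ ≤ 1
      exact le_of_eq hadj
    rw [L.amtLim_eq (hK y hy), L.amtLim_eq (hK _ hpar)]
    rw [← (hh y).1, ← (hh x).1, add_assoc] at h3
    have h5 := (hh (x + L.dir K ξ x)).1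
    rw [amt, amt, h5]
    exact h3
  sum n x := by
    obtain ⟨K, hK⟩ := L.exists_level hξ x
    have hx' := hK x (Flow.mem_nbhd_self x)
    rw [L.amtLim_eq hx']
    obtain ⟨h, hh⟩ := L.exists_rep K ξ
    have h1 : ∀ Y ∈ nbhd (h + x), ¬ L.bad K (modv (L.b K) Y) := by
      intro Y hY
      have h2 := hK (Y - h) (by rw [← mem_nbhd_add (h := h)]; simpa using hY) K le_rfl
      rw [badAt, (hh _).2.1] at h2
      simpa using h2
    have h3 := L.sum K (h + x) n h1
    rw [amt, (hh x).1, h3]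
    -- the adjacency of the limit flow
    have hadj : ∀ y, L.amtLim n ξ y ≠ 0 → dist₁ y (y + L.dirLim ξ y) = 1 := by
      intro y hy
      obtain ⟨K, hK⟩ := L.exists_level hξ y
      have hx' := hK y (Flow.mem_nbhd_self y)
      rw [L.amtLim_eq hx'] at hy
      rw [L.dirLim_eq hx']
      obtain ⟨h, hh⟩ := L.exists_rep K ξ
      have h1 : ∀ Y ∈ nbhd (h + y), ¬ L.bad K (modv (L.b K) Y) := by
        intro Y hY
        have h2 := hK (Y - h) (by rw [← mem_nbhd_add (h := h)]; simpa using hY) K le_rfl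
        rw [badAt, (hh _).2.1] at h2
        simpa using h2
      have h3 := L.adj K (h + y) n h1 (by rw [← (hh y).1]; exact hy)
      rw [← (hh y).1, add_assoc, dist₁_add_left] at h3
      exact h3
    -- transport of the sum
    have key : ∀ y, (L.amtLim n ξ y ≠ 0 ∧ y + L.dirLim ξ y = x) ↔
        (h + y ∈ nbhd (h + x) ∧ L.W K (modv (L.e K) (h + y)) n ≠ 0 ∧
          h + y + L.D K (modv (L.e K) (h + y)) = h + x) := by
      intro y
      constructor
      · rintro ⟨h4, h5⟩
        have hy : y ∈ nbhd x := by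
          show dist₁ _ _ ≤ 1
          rw [dist₁_comm, ← h5, hadj y h4]
        rw [L.dirLim_eq (hK y hy)] at h5
        rw [L.amtLim_eq (hK y hy)] at h4
        refine ⟨mem_nbhd_add.2 hy, ?_, ?_⟩
        · rw [← (hh y).1]; exact h4
        · rw [← (hh y).1, add_assoc]
          exact congrArg (h + ·) h5
      · rintro ⟨hy, h4, h5⟩
        rw [mem_nbhd_add] at hy
        rw [L.dirLim_eq (hK y hy), L.amtLim_eq (hK y hy)]
        refine ⟨?_, ?_⟩
        · rw [amt, (hh y).1]; exact h4
        · rw [← (hh y).1, add_assoc] at h5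
          exact add_left_cancel h5
    let E : {y : Site d // L.amtLim n ξ y ≠ 0 ∧ y + L.dirLim ξ y = x} ≃
        {Y : Site d // Y ∈ nbhd (h + x) ∧ L.W K (modv (L.e K) Y) n ≠ 0 ∧
          Y + L.D K (modv (L.e K) Y) = h + x} :=
      (Equiv.addLeft h).subtypeEquiv key
    rw [← E.tsum_eq]
    refine tsum_congr fun y => ?_
    have hy : (y : Site d) ∈ nbhd x := mem_nbhd_add.1 ((key y).1 y.2).1
    rw [L.amtLim_eq (hK _ hy), amt, (hh _).1]
    rfl
  height x := by
    obtain ⟨K, hK⟩ := hξ x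
    obtain ⟨h, hh⟩ := L.exists_rep K ξ
    have h1 := hK K le_rfl
    rw [badAt, (hh x).2.1] at h1
    obtain ⟨n, hn⟩ := L.height K _ h1
    refine ⟨n, ?_⟩
    show L.amtLim n ξ x = 0
    rw [L.amtLim_eq hK, amt, (hh x).1, hn]

open Classical in
/-- The random flow. -/
noncomputable def flow (ξ : Odo d) : Flow d :=
  if hξ : ξ ∈ L.good then L.goodFlow hξ else zeroFlow d

lemma flow_c (n : ℕ) (x : Site d) :
    (fun ξ => (L.flow ξ).c n x) = L.good.indicator fun ξ => L.amtLim n ξ x := by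
  funext ξ
  by_cases h : ξ ∈ L.good
  · rw [Set.indicator_of_mem h, flow, dif_pos h]
    rfl
  · rw [Set.indicator_of_notMem h, flow, dif_neg h]
    rfl

lemma measurable_amt (k n : ℕ) (x : Site d) : Measurable fun ξ => L.amt k n ξ x := by
  have h : Measurable fun r : Site d => L.W k r n := measurable_of_countable _
  exact h.comp (measurable_at' (L.e k) x)

lemma measurable_dir (k : ℕ) (x : Site d) : Measurable fun ξ => L.dir k ξ x := by
  have h : Measurable fun r : Site d => L.D k r := measurable_of_countable _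
  exact h.comp (measurable_at' (L.e k) x)

lemma measurable_flow_c (n : ℕ) (x : Site d) : Measurable fun ξ => (L.flow ξ).c n x := by
  rw [flow_c]
  refine Measurable.indicator ?_ L.measurableSet_good
  exact Measurable.liminf fun k => L.measurable_amt k n x

lemma measurable_flow_par (x : Site d) : Measurable fun ξ => (L.flow ξ).par x := by
  refine measurable_to_countable' fun y => ?_
  have h : (fun ξ => (L.flow ξ).par x) ⁻¹' {y} =
      (L.good ∩ ⋃ K : ℕ, ⋂ k : ℕ, ⋂ _ : k ≥ K, {ξ | L.dir k ξ x = y - x}) ∪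
        (L.goodᶜ ∩ {_ξ | x = y}) := by
    ext ξ
    simp only [Set.mem_preimage, Set.mem_singleton_iff, Set.mem_union, Set.mem_inter_iff,
      Set.mem_iUnion, Set.mem_iInter, Set.mem_ofPred_eq, Set.mem_compl_iff]
    by_cases hξ : ξ ∈ L.good
    · simp only [hξ, true_and, not_true_eq_false, false_and, or_false]
      rw [flow, dif_pos hξ]
      change x + L.dirLim ξ x = y ↔ _
      obtain ⟨K, hK⟩ := hξ x
      rw [L.dirLim_eq hK]
      constructor
      · intro h
        refine ⟨K, fun k hk => ?_⟩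
        rw [(L.stable_of_le hK hk).2, ← h]
        simp
      · rintro ⟨K', h⟩
        have h2 := h (Nat.max K K') (le_max_right _ _)
        rw [(L.stable_of_le hK (le_max_left _ _)).2] at h2
        rw [h2]
        simp
    · simp only [hξ, false_and, not_false_eq_true, true_and, false_or]
      rw [flow, dif_neg hξ]
      rfl
  rw [h]
  refine MeasurableSet.union ?_ ?_
  · refine L.measurableSet_good.inter (MeasurableSet.iUnion fun K => MeasurableSet.iInter fun k =>
      MeasurableSet.iInter fun _ => ?_)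
    exact L.measurable_dir k x (measurableSet_singleton _)
  · exact L.measurableSet_good.compl.inter (MeasurableSet.const _)

lemma amtLim_shift (n : ℕ) (ξ : Odo d) (x z : Site d) :
    L.amtLim n (shift ξ z) x = L.amtLim n ξ (z + x) := by
  simp only [amtLim, amt, at'_shift]

lemma flow_shift (n : ℕ) (ξ : Odo d) (x z : Site d) :
    (L.flow (shift ξ z)).c n x = (L.flow ξ).c n (z + x) := by
  have h1 := congrFun (L.flow_c n x) (shift ξ z)
  have h2 := congrFun (L.flow_c n (z + x)) ξ
  rw [h1, h2]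
  by_cases h : ξ ∈ L.good
  · rw [Set.indicator_of_mem h, Set.indicator_of_mem (L.shift_mem_good.2 h), amtLim_shift]
  · rw [Set.indicator_of_notMem h,
      Set.indicator_of_notMem (fun h2 => h (L.shift_mem_good.1 h2))]

lemma translationInvariant : TranslationInvariant (odo d) fun ξ => (L.flow ξ).c 0 := by
  intro z
  have h1 : (fun (ξ : Odo d) (x : Site d) => (L.flow ξ).c 0 (x + z)) =
      (fun (ξ : Odo d) (x : Site d) => (L.flow ξ).c 0 x) ∘ fun ξ => shift ξ z := by
    funext ξ x
    rw [Function.comp, flow_shift, add_comm]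
  have hm : Measurable fun (ξ : Odo d) (x : Site d) => (L.flow ξ).c 0 x :=
    measurable_pi_lambda _ fun x => L.measurable_flow_c 0 x
  rw [h1, ← Measure.map_map hm (measurePreserving_shift z).measurable,
    (measurePreserving_shift z).map_eq]

/-- If almost surely some site holds resource, then so does the origin with positive
probability. -/
lemma pos_of_ae_exists (h : ∀ᵐ ξ ∂odo d, ∃ x, (L.flow ξ).c 0 x ≠ 0) :
    0 < odo d {ξ | 0 < (L.flow ξ).c 0 0} := by
  by_contra h0
  have h1 : odo d {ξ | 0 < (L.flow ξ).c 0 0} = 0 := by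
    by_contra h2
    exact h0 (pos_iff_ne_zero.2 h2)
  have hms : MeasurableSet {ξ : Odo d | 0 < (L.flow ξ).c 0 0} :=
    measurableSet_lt measurable_const (L.measurable_flow_c 0 0)
  have h2 : ∀ x : Site d, ∀ᵐ ξ ∂odo d, (L.flow ξ).c 0 x = 0 := by
    intro x
    have h3 : odo d {ξ | 0 < (L.flow ξ).c 0 x} = 0 := by
      have h4 : {ξ | 0 < (L.flow ξ).c 0 x} =
          (fun ξ => shift ξ x) ⁻¹' {ξ | 0 < (L.flow ξ).c 0 0} := by
        ext ξ
        simp only [Set.mem_preimage, Set.mem_ofPred_eq]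
        rw [flow_shift, add_zero]
      rw [h4, (measurePreserving_shift x).measure_preimage hms.nullMeasurableSet, h1]
    rw [ae_iff]
    convert h3 using 2
    ext ξ
    exact pos_iff_ne_zero.symm
  have h3 : ∀ᵐ ξ ∂odo d, False := by
    filter_upwards [h, ae_all_iff.2 h2] with ξ h4 h5
    obtain ⟨x, hx⟩ := h4
    exact hx (h5 x)
  rw [ae_iff] at h3
  simp at h3

/-- **From periodic patterns to the theorem**, if the limit flow is not empty. -/
theorem exists_clustering_of_pos (hpos : 0 < odo d {ξ | 0 < (L.flow ξ).c 0 0})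
    {B : ℝ≥0∞} (hB : B ≠ ∞) (hint : ∀ k, ∫⁻ ξ, L.W k (resv (L.e k) ξ) 0 ∂odo d ≤ B) :
    ∃ (Ω : Type) (_ : MeasurableSpace Ω) (P : Measure Ω) (C : ℕ → Ω → Site d → ℝ≥0∞)
      (v : ℕ → Ω → Site d → Site d), IsProbabilityMeasure P ∧ IsClustering P C v ∧
        TranslationInvariant P (C 0) ∧ HypothesisH P C v ∧ (∀ x, ∫⁻ ω, C 0 ω x ∂P < ∞) ∧
          ∀ᵐ ω ∂P, ∀ x, ∃ N, ∀ n ≥ N, C n ω x = 0 := by
  refine Clust.exists_clustering (odo d) (fl := L.flow) L.measurable_flow_c L.measurable_flow_par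
    L.translationInvariant hpos ?_
  · intro x
    have h1 : ∫⁻ ξ, (L.flow ξ).c 0 x ∂odo d = ∫⁻ ξ, (L.flow ξ).c 0 0 ∂odo d := by
      have h2 : ∀ ξ, (L.flow ξ).c 0 x = (L.flow (shift ξ x)).c 0 0 := by
        intro ξ
        rw [flow_shift, add_zero]
      simp_rw [h2]
      exact (measurePreserving_shift x).lintegral_comp (L.measurable_flow_c 0 0)
    rw [h1]
    calc ∫⁻ ξ, (L.flow ξ).c 0 0 ∂odo d
        ≤ ∫⁻ ξ, L.amtLim 0 ξ 0 ∂odo d := by
          refine lintegral_mono fun ξ => ?_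
          have h5 := congrFun (L.flow_c 0 0) ξ
          rw [h5]
          exact Set.indicator_le_self _ _ _
      _ ≤ liminf (fun k => ∫⁻ ξ, L.amt k 0 ξ 0 ∂odo d) atTop :=
          lintegral_liminf_le fun k => L.measurable_amt k 0 0
      _ ≤ liminf (fun _ : ℕ => B) atTop := by
          refine liminf_le_liminf (Eventually.of_forall fun k => ?_)
          have h6 : ∀ ξ : Odo d, L.amt k 0 ξ 0 = L.W k (resv (L.e k) ξ) 0 := by
            intro ξ; rw [amt, at', shift_zero]
          simp_rw [h6]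
          exact hint k
      _ = B := by simp
      _ < ∞ := lt_top_iff_ne_top.2 hB

/-- **From periodic patterns to the theorem.** -/
theorem exists_clustering (hbad : ∑' k, L.badProb k ≠ ∞) {k₀ : ℕ}
    (hpos : ∑' k, L.badProb (k₀ + k) < odo d {ξ | L.W k₀ (resv (L.e k₀) ξ) 0 ≠ 0})
    {B : ℝ≥0∞} (hB : B ≠ ∞) (hint : ∀ k, ∫⁻ ξ, L.W k (resv (L.e k) ξ) 0 ∂odo d ≤ B) :
    ∃ (Ω : Type) (_ : MeasurableSpace Ω) (P : Measure Ω) (C : ℕ → Ω → Site d → ℝ≥0∞)
      (v : ℕ → Ω → Site d → Site d), IsProbabilityMeasure P ∧ IsClustering P C v ∧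
        TranslationInvariant P (C 0) ∧ HypothesisH P C v ∧ (∀ x, ∫⁻ ω, C 0 ω x ∂P < ∞) ∧
          ∀ᵐ ω ∂P, ∀ x, ∃ N, ∀ n ≥ N, C n ω x = 0 := by
  refine L.exists_clustering_of_pos ?_ hB hint
  · -- positivity
    have hA : MeasurableSet {ξ : Odo d | L.W k₀ (resv (L.e k₀) ξ) 0 ≠ 0} :=
      measurable_resv (L.e k₀) (Set.to_countable {r | L.W k₀ r 0 ≠ 0}).measurableSet
    have h1 : odo d ({ξ | L.W k₀ (resv (L.e k₀) ξ) 0 ≠ 0} \ ⋃ k, {ξ | L.badAt (k₀ + k) ξ 0}) ≤
        odo d {ξ | 0 < (L.flow ξ).c 0 0} := by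
      refine measure_mono_ae ?_
      filter_upwards [L.ae_good hbad] with ξ hξ
      rintro ⟨h2, h3⟩
      have h2' : L.W k₀ (resv (L.e k₀) ξ) 0 ≠ 0 := h2
      show 0 < (L.flow ξ).c 0 0
      have h4 : ∀ k ≥ k₀, ¬ L.badAt k ξ 0 := by
        intro k hk h5
        apply h3
        rw [Set.mem_iUnion]
        refine ⟨k - k₀, ?_⟩
        show L.badAt (k₀ + (k - k₀)) ξ 0
        rwa [Nat.add_sub_cancel' hk]
      have h5 := congrFun (L.flow_c 0 0) ξ
      rw [h5, Set.indicator_of_mem hξ, L.amtLim_eq h4, amt, at', shift_zero]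
      exact pos_iff_ne_zero.2 h2'
    refine lt_of_lt_of_le ?_ h1
    refine lt_of_lt_of_le ?_ (le_measure_sdiff)
    rw [tsub_pos_iff_lt]
    refine lt_of_le_of_lt (measure_iUnion_le _) ?_
    exact hpos

end Levels

end Pool.Agent.Helper99.Clust
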