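import Pool.Agent.Helper99.Clust.Flow

/-!
# The probabilistic part: from random flows to a clustering process satisfying (H)
-/

open MeasureTheory Set ProbabilityTheory
open scoped ENNReal

namespace Pool.Agent.Helper99.Clust

variable {d : ℕ}

lemma nbhd_finite (x : Site d) : (nbhd x).Finite := by
  refine (Set.finite_Icc (fun i => x i - 1) (fun i => x i + 1)).subset fun y hy => ?_
  have h : ∀ i, |x i - y i| ≤ 1 := by
    intro i
    have h2 : |x i - y i| ≤ ∑ i, |x i - y i| :=
      Finset.single_le_sum (f := fun i => |x i - y i|) (fun i _ => abs_nonneg _)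
        (Finset.mem_univ i)
    exact h2.trans hy
  rw [Set.mem_Icc]
  constructor
  · intro i
    have := abs_le.1 (h i)
    show x i - 1 ≤ y i
    omega
  · intro i
    have := abs_le.1 (h i)
    show y i ≤ x i + 1
    omega

lemma maximisers_finite (c : Site d → ℝ≥0∞) (x : Site d) : (maximisers c x).Finite :=
  (nbhd_finite x).subset fun _ h => h.1

lemma maximisers_nonempty (c : Site d → ℝ≥0∞) (x : Site d) : (maximisers c x).Nonempty := by
  obtain ⟨a, ha, h⟩ := Set.exists_max_image (nbhd x) c (nbhd_finite x)
    ⟨x, Flow.mem_nbhd_self x⟩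
  exact ⟨a, ha, h⟩

/-- The set `M(x)` as a nonempty finite set. -/
noncomputable def maxFin (c : Site d → ℝ≥0∞) (x : Site d) :
    {S : Finset (Site d) // S.Nonempty} :=
  ⟨(maximisers_finite c x).toFinset, by
    simpa using maximisers_nonempty c x⟩

lemma mem_maxFin {c : Site d → ℝ≥0∞} {x y : Site d} :
    y ∈ (maxFin c x).1 ↔ y ∈ maximisers c x := by
  simp [maxFin]

lemma card_maxFin (c : Site d → ℝ≥0∞) (x : Site d) :
    (maxFin c x).1.card = (maximisers c x).ncard := by
  rw [maxFin, Set.ncard_eq_toFinset_card _ (maximisers_finite c x)]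

/-- The indices of the auxiliary choices: time, site, set of candidates. -/
abbrev Idx (d : ℕ) : Type := ℕ × Site d × {S : Finset (Site d) // S.Nonempty}

/-- The auxiliary choice of index `(n, x, S)` takes values in `S`. -/
abbrev Val (i : Idx d) : Type := {y : Site d // y ∈ i.2.2.1}

instance (i : Idx d) : Nonempty (Val i) := by
  obtain ⟨y, hy⟩ := i.2.2.2
  exact ⟨⟨y, hy⟩⟩

/-- All auxiliary choices. -/
abbrev Choices (d : ℕ) : Type := (i : Idx d) → Val i

/-- The law of the auxiliary choices: independent and uniform. -/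
noncomputable def choiceLaw (d : ℕ) : Measure (Choices d) :=
  Measure.infinitePi fun i => (uniformOn Set.univ : Measure (Val i))

instance : IsProbabilityMeasure (choiceLaw d) := by unfold choiceLaw; infer_instance

/-- The choice `v_n(x)`. -/
noncomputable def choose (c : Site d → ℝ≥0∞) (n : ℕ) (w : Choices d) (x : Site d) : Site d :=
  (w (n, x, maxFin c x)).1

lemma choose_mem (c : Site d → ℝ≥0∞) (n : ℕ) (w : Choices d) (x : Site d) :
    choose c n w x ∈ maximisers c x :=
  mem_maxFin.1 (w (n, x, maxFin c x)).2

/-- For a fixed configuration the choices of time `n` at a finite set of sites. -/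
lemma choiceLaw_choose (c : Site d → ℝ≥0∞) (n : ℕ) (A : Finset (Site d)) (w₀ : Site d → Site d) :
    choiceLaw d {w | ∀ x ∈ A, choose c n w x = w₀ x} = ∏ x ∈ A, uniformMass c x (w₀ x) := by
  classical
  set s : Finset (Idx d) := A.image fun x => (n, x, maxFin c x) with hs
  have h1 : {w : Choices d | ∀ x ∈ A, choose c n w x = w₀ x} =
      Set.pi (s : Set (Idx d)) fun i => {y : Val i | y.1 = w₀ i.2.1} := by
    ext w
    simp only [Set.mem_ofPred_eq, Set.mem_pi, hs, Finset.coe_image, Set.mem_image,
      Finset.mem_coe]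
    constructor
    · rintro h i ⟨x, hx, rfl⟩
      exact h x hx
    · intro h x hx
      exact h _ ⟨x, hx, rfl⟩
  rw [h1, choiceLaw, Measure.infinitePi_pi _ (fun i _ => (Set.toFinite _).measurableSet), hs,
    Finset.prod_image]
  · refine Finset.prod_congr rfl fun x _ => ?_
    rw [uniformOn_univ, uniformMass, ← card_maxFin]
    split_ifs with h
    · have h2 : {y : Val ((n, x, maxFin c x) : Idx d) | y.1 = w₀ x} =
          {(⟨w₀ x, mem_maxFin.2 h⟩ : Val ((n, x, maxFin c x) : Idx d))} := by
        ext y; simp [Subtype.ext_iff]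
      rw [h2, Measure.count_singleton, Fintype.card_coe, one_div]
    · have h2 : {y : Val ((n, x, maxFin c x) : Idx d) | y.1 = w₀ x} = ∅ := by
        ext y
        simp only [Set.mem_ofPred_eq, Set.mem_empty_iff_false, iff_false]
        intro h3
        apply h
        rw [← h3]
        exact mem_maxFin.1 y.2
      rw [h2, measure_empty, ENNReal.zero_div]
  · intro x _ y _ hxy
    simpa using congrArg (fun i : Idx d => i.2.1) hxy

section

variable {G : Type*} [mG : MeasurableSpace G]

/-- The σ-algebra of `G` and of the choices before time `n`. -/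
@[reducible] def early (G : Type*) [mG : MeasurableSpace G] (d n : ℕ) :
    MeasurableSpace (G × Choices d) :=
  MeasurableSpace.comap Prod.fst mG ⊔
    ⨆ i ∈ {i : Idx d | i.1 < n}, MeasurableSpace.comap (fun ω : G × Choices d => ω.2 i) inferInstance

lemma measurableSet_mem_maximisers {c : G → Site d → ℝ≥0∞} (hc : ∀ x, Measurable fun g => c g x)
    (x y : Site d) : MeasurableSet {g | y ∈ maximisers (c g) x} := by
  have h : {g | y ∈ maximisers (c g) x} =
      {_g | y ∈ nbhd x} ∩ ⋂ z ∈ nbhd x, {g | c g z ≤ c g y} := by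
    ext g
    simp [maximisers]
  rw [h]
  exact (MeasurableSet.const _).inter
    (MeasurableSet.biInter (Set.to_countable _) fun z _ => measurableSet_le (hc z) (hc y))

lemma measurableSet_maxFin {c : G → Site d → ℝ≥0∞} (hc : ∀ x, Measurable fun g => c g x)
    (x : Site d) (S : {S : Finset (Site d) // S.Nonempty}) :
    MeasurableSet {g | maxFin (c g) x = S} := by
  have h : {g | maxFin (c g) x = S} = ⋂ y : Site d, {g | y ∈ maximisers (c g) x ↔ y ∈ S.1} := by
    ext g
    simp only [Set.mem_ofPred_eq, Set.mem_iInter]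
    constructor
    · rintro rfl y
      exact mem_maxFin.symm
    · intro h
      apply Subtype.ext
      ext y
      rw [mem_maxFin, h]
  rw [h]
  refine MeasurableSet.iInter fun y => ?_
  by_cases hy : y ∈ S.1
  · simpa [hy] using measurableSet_mem_maximisers hc x y
  · have h2 : {g | y ∈ maximisers (c g) x ↔ y ∈ S.1} = {g | y ∈ maximisers (c g) x}ᶜ := by
      ext g; simp [hy]
    rw [h2]
    exact (measurableSet_mem_maximisers hc x y).compl

lemma measurable_choose {c : G → Site d → ℝ≥0∞} (hc : ∀ x, Measurable fun g => c g x)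
    (k : ℕ) (x : Site d) (m : MeasurableSpace (G × Choices d))
    (h1 : MeasurableSpace.comap Prod.fst mG ≤ m)
    (h2 : ∀ S, MeasurableSpace.comap (fun ω : G × Choices d => ω.2 (k, x, S)) inferInstance ≤ m) :
    Measurable[m] fun ω : G × Choices d => choose (c ω.1) k ω.2 x := by
  refine @measurable_to_countable' _ _ _ _ _ _ fun y => ?_
  have h : (fun ω : G × Choices d => choose (c ω.1) k ω.2 x) ⁻¹' {y} =
      ⋃ S, ((Prod.fst ⁻¹' {g | maxFin (c g) x = S}) ∩
        ((fun ω : G × Choices d => ω.2 (k, x, S)) ⁻¹' {z | z.1 = y})) := by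
    ext ω
    simp only [Set.mem_preimage, Set.mem_singleton_iff, Set.mem_iUnion, Set.mem_inter_iff,
      Set.mem_ofPred_eq]
    constructor
    · intro h
      exact ⟨_, rfl, h⟩
    · rintro ⟨S, rfl, h⟩
      exact h
  rw [h]
  refine MeasurableSet.iUnion fun S => MeasurableSet.inter ?_ ?_
  · exact h1 _ ⟨_, measurableSet_maxFin hc x S, rfl⟩
  · exact h2 S _ ⟨_, (Set.toFinite _).measurableSet, rfl⟩

/-- The amounts of the random flow, on the extended probability space. -/
def amount (fl : G → Flow d) (n : ℕ) (ω : G × Choices d) : Site d → ℝ≥0∞ := (fl ω.1).c n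

/-- The choices, on the extended probability space. -/
noncomputable def pick (fl : G → Flow d) (n : ℕ) (ω : G × Choices d) : Site d → Site d :=
  choose ((fl ω.1).c n) n ω.2

variable {fl : G → Flow d}

lemma early_le (n : ℕ) : early G d n ≤ (inferInstance : MeasurableSpace (G × Choices d)) := by
  refine sup_le measurable_fst.comap_le (iSup₂_le fun i _ => ?_)
  exact ((measurable_pi_apply i).comp measurable_snd).comap_le

lemma past_le (hc : ∀ n x, Measurable fun g => (fl g).c n x) (n : ℕ) :
    past (amount fl) (pick fl) n ≤ early G d n := by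
  refine sup_le (iSup_le fun x => ?_) (iSup₂_le fun k hk => iSup_le fun x => ?_)
  · refine le_sup_of_le_left ?_
    have h : Measurable[MeasurableSpace.comap Prod.fst mG]
        (fun ω : G × Choices d => amount fl 0 ω x) :=
      (hc 0 x).comp (comap_measurable Prod.fst)
    exact h.comap_le
  · have h : Measurable[early G d n] (fun ω : G × Choices d => pick fl k ω x) := by
      refine measurable_choose (c := fun g => (fl g).c k) (hc k) k x _ le_sup_left fun S => ?_
      refine le_sup_of_le_right ?_
      exact le_iSup₂_of_le (k, x, S) hk le_rfl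
    exact h.comap_le

/-- Sections of early events only depend on the early choices. -/
lemma measurableSet_section {n : ℕ} {E : Set (G × Choices d)} (hE : MeasurableSet[early G d n] E)
    (g : G) : MeasurableSet[⨆ i ∈ {i : Idx d | i.1 < n},
      MeasurableSpace.comap (fun w : Choices d => w i) inferInstance] (Prod.mk g ⁻¹' E) := by
  have h : early G d n ≤ (⨆ i ∈ {i : Idx d | i.1 < n},
      MeasurableSpace.comap (fun w : Choices d => w i) inferInstance).map (Prod.mk g) := by
    refine sup_le ?_ (iSup₂_le fun i hi => ?_)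
    · rintro _ ⟨s, _, rfl⟩
      rw [MeasurableSpace.map_def]
      by_cases hg : g ∈ s
      · have h3 : (Prod.mk g ⁻¹' (Prod.fst ⁻¹' s) : Set (Choices d)) = Set.univ := by
          ext w; simp [hg]
        rw [h3]
        exact @MeasurableSet.univ _ (_)
      · have h3 : (Prod.mk g ⁻¹' (Prod.fst ⁻¹' s) : Set (Choices d)) = ∅ := by
          ext w; simp [hg]
        rw [h3]
        exact @MeasurableSet.empty _ (_)
    · rintro _ ⟨s, hs, rfl⟩
      have h2 : MeasurableSpace.comap (fun w : Choices d => w i) inferInstance ≤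
          ⨆ i ∈ {i : Idx d | i.1 < n},
            MeasurableSpace.comap (fun w : Choices d => w i) inferInstance :=
        le_iSup₂_of_le i hi le_rfl
      exact h2 _ ⟨s, hs, rfl⟩
  exact h E hE

/-- Early events are independent of the choices at time `n`. -/
lemma choiceLaw_inter {n : ℕ} {E : Set (Choices d)}
    (hE : MeasurableSet[⨆ i ∈ {i : Idx d | i.1 < n},
      MeasurableSpace.comap (fun w : Choices d => w i) inferInstance] E)
    (c : Site d → ℝ≥0∞) (A : Finset (Site d)) (w₀ : Site d → Site d) :
    choiceLaw d (E ∩ {w | ∀ x ∈ A, choose c n w x = w₀ x}) =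
      choiceLaw d E * ∏ x ∈ A, uniformMass c x (w₀ x) := by
  rw [← choiceLaw_choose c n]
  have hind : iIndep (fun i : Idx d =>
      MeasurableSpace.comap (fun w : Choices d => w i) inferInstance) (choiceLaw d) :=
    iIndepFun_infinitePi (X := fun i (y : Val i) => y) (fun i => measurable_id)
  have hdisj : Disjoint {i : Idx d | i.1 < n} {i : Idx d | i.1 = n} := by
    rw [Set.disjoint_left]
    intro i h1 h2
    have h1' : i.1 < n := h1
    have h2' : i.1 = n := h2
    omega
  have h2 := indep_iSup_of_disjoint (fun i => (measurable_pi_apply i).comap_le) hind hdisj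
  rw [Indep_iff] at h2
  refine h2 E _ hE ?_
  have h3 : {w : Choices d | ∀ x ∈ A, choose c n w x = w₀ x} =
      ⋂ x ∈ A, (fun w : Choices d => w (n, x, maxFin c x)) ⁻¹' {y | y.1 = w₀ x} := by
    ext w; simp [choose]
  rw [h3]
  refine @Finset.measurableSet_biInter _ _ (_) _ A fun x _ => ?_
  have h4 : MeasurableSpace.comap (fun w : Choices d => w (n, x, maxFin c x)) inferInstance ≤
      ⨆ i ∈ {i : Idx d | i.1 = n},
        MeasurableSpace.comap (fun w : Choices d => w i) inferInstance :=
    le_iSup₂_of_le (f := fun (i : Idx d) (_ : i ∈ {i : Idx d | i.1 = n}) =>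
      MeasurableSpace.comap (fun w : Choices d => w i) inferInstance) (n, x, maxFin c x) rfl le_rfl
  exact h4 _ ⟨_, (Set.toFinite _).measurableSet, rfl⟩

lemma measurable_uniformMass {c : G → Site d → ℝ≥0∞} (hc : ∀ x, Measurable fun g => c g x)
    (x y : Site d) : Measurable fun g => uniformMass (c g) x y := by
  classical
  have h : (fun g => uniformMass (c g) x y) = (fun S : {S : Finset (Site d) // S.Nonempty} =>
      if y ∈ S.1 then ((S.1.card : ℝ≥0∞))⁻¹ else 0) ∘ fun g => maxFin (c g) x := by
    funext g
    simp only [Function.comp, uniformMass, mem_maxFin, card_maxFin]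
  rw [h]
  let _ : MeasurableSpace {S : Finset (Site d) // S.Nonempty} := ⊤
  refine (measurable_of_countable _).comp ?_
  exact measurable_to_countable' fun S => measurableSet_maxFin hc x S

end

section Main

variable {G : Type} [MeasurableSpace G] (μ : Measure G) {fl : G → Flow d}

/-- The extended process is a clustering process. -/
theorem isClustering (hc : ∀ n x, Measurable fun g => (fl g).c n x) :
    IsClustering (μ.prod (choiceLaw d)) (amount fl) (pick fl) where
  measurable_initial x := (hc 0 x).comp measurable_fst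
  measurable_choice n x := by
    refine measurable_choose (c := fun g => (fl g).c n) (hc n) n x _ measurable_fst.comap_le
      fun S => ?_
    exact ((measurable_pi_apply _).comp measurable_snd).comap_le
  dynamics n ω := ((fl ω.1).step_eq fun x => choose_mem _ _ _ _).symm
  uniform n A w₀ E hE := by
    have hE1 : MeasurableSet[early G d n] E := past_le hc n E hE
    have hE2 : MeasurableSet E := early_le n E hE1
    have hB : MeasurableSet {ω : G × Choices d | ∀ x ∈ A, pick fl n ω x = w₀ x} := by
      have h : {ω : G × Choices d | ∀ x ∈ A, pick fl n ω x = w₀ x} =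
          ⋂ x ∈ A, {ω | pick fl n ω x = w₀ x} := by ext; simp
      rw [h]
      refine Finset.measurableSet_biInter A fun x _ => ?_
      have h2 : Measurable fun ω : G × Choices d => pick fl n ω x := by
        refine measurable_choose (c := fun g => (fl g).c n) (hc n) n x _ measurable_fst.comap_le
          fun S => ?_
        exact ((measurable_pi_apply _).comp measurable_snd).comap_le
      exact h2 (measurableSet_singleton _)
    have hm : Measurable fun g => ∏ x ∈ A, uniformMass ((fl g).c n) x (w₀ x) :=
      Finset.measurable_prod _ fun x _ => measurable_uniformMass (hc n) x (w₀ x)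
    rw [Measure.prod_apply (hE2.inter hB)]
    have h1 : ∀ g, choiceLaw d (Prod.mk g ⁻¹' (E ∩ {ω | ∀ x ∈ A, pick fl n ω x = w₀ x})) =
        choiceLaw d (Prod.mk g ⁻¹' E) * ∏ x ∈ A, uniformMass ((fl g).c n) x (w₀ x) := by
      intro g
      rw [Set.preimage_inter]
      exact choiceLaw_inter (measurableSet_section hE1 g) ((fl g).c n) A w₀
    simp_rw [h1]
    have h2 : ∫⁻ ω in E, ∏ x ∈ A, uniformMass (amount fl n ω) x (w₀ x) ∂μ.prod (choiceLaw d) =
        ∫⁻ ω, E.indicator (fun ω => ∏ x ∈ A, uniformMass ((fl ω.1).c n) x (w₀ x)) ω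
          ∂μ.prod (choiceLaw d) := by
      rw [lintegral_indicator hE2]
      rfl
    rw [h2, lintegral_prod]
    · refine lintegral_congr fun g => ?_
      have h3 : ∀ w : Choices d, E.indicator
          (fun ω => ∏ x ∈ A, uniformMass ((fl ω.1).c n) x (w₀ x)) (g, w) =
          (Prod.mk g ⁻¹' E).indicator
            (fun _ => ∏ x ∈ A, uniformMass ((fl g).c n) x (w₀ x)) w := by
        intro w
        by_cases h : (g, w) ∈ E
        · rw [Set.indicator_of_mem h, Set.indicator_of_mem (s := Prod.mk g ⁻¹' E) h]
        · rw [Set.indicator_of_notMem h, Set.indicator_of_notMem (s := Prod.mk g ⁻¹' E) h]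
      simp_rw [h3]
      rw [lintegral_indicator (measurable_prodMk_left hE2), setLIntegral_const, mul_comm]
    · exact ((hm.comp measurable_fst).indicator hE2).aemeasurable

/-- **From random flows to the theorem.** -/
theorem exists_clustering [IsProbabilityMeasure μ]
    (hc : ∀ n x, Measurable fun g => (fl g).c n x) (hpar : ∀ x, Measurable fun g => (fl g).par x)
    (hinv : TranslationInvariant μ fun g => (fl g).c 0) (hpos : 0 < μ {g | 0 < (fl g).c 0 0})
    (hint : ∀ x, ∫⁻ g, (fl g).c 0 x ∂μ < ∞) :
    ∃ (Ω : Type) (_ : MeasurableSpace Ω) (P : Measure Ω) (C : ℕ → Ω → Site d → ℝ≥0∞)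
      (v : ℕ → Ω → Site d → Site d), IsProbabilityMeasure P ∧ IsClustering P C v ∧
        TranslationInvariant P (C 0) ∧ HypothesisH P C v ∧ (∀ x, ∫⁻ ω, C 0 ω x ∂P < ∞) ∧
          ∀ᵐ ω ∂P, ∀ x, ∃ N, ∀ n ≥ N, C n ω x = 0 := by
  have hfst : (μ.prod (choiceLaw d)).map Prod.fst = μ := by
    rw [← Measure.fst, Measure.fst_prod]
  refine ⟨G × Choices d, inferInstance, μ.prod (choiceLaw d), amount fl, pick fl, inferInstance,
    isClustering μ hc, ?_, ⟨?_, ?_⟩, ?_, ?_⟩
  · intro z
    have h1 : (μ.prod (choiceLaw d)).map (fun ω x => amount fl 0 ω (x + z)) =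
        μ.map fun g x => (fl g).c 0 (x + z) := by
      conv_rhs => rw [← hfst]
      rw [Measure.map_map (by fun_prop) measurable_fst]
      rfl
    have h2 : (μ.prod (choiceLaw d)).map (fun ω x => amount fl 0 ω x) =
        μ.map fun g x => (fl g).c 0 x := by
      conv_rhs => rw [← hfst]
      rw [Measure.map_map (by fun_prop) measurable_fst]
      rfl
    rw [h1, h2]
    exact hinv z
  · have h : {ω : G × Choices d | 0 < amount fl 0 ω 0} = Prod.fst ⁻¹' {g | 0 < (fl g).c 0 0} := rfl
    rw [h, ← Measure.map_apply measurable_fst (measurableSet_lt measurable_const (hc 0 0)), hfst]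
    exact hpos
  · have hv : ∀ x, MeasurableSet {g | (fl g).c 0 x ≠ 0} := fun x =>
      (hc 0 x (measurableSet_singleton 0)).compl
    have hp : ∀ x y, MeasurableSet {g | (fl g).par x = y} := fun x y =>
      hpar x (measurableSet_singleton y)
    refine ⟨fun ω => (fl ω.1).forest, fun x => measurable_fst (hv x), fun x y => ?_,
      Filter.Eventually.of_forall fun ω => ⟨(fl ω.1).forest_acyclic, (fl ω.1).forest_oneEnded, ?_,
        fun n x h => ?_⟩⟩
    · exact measurable_fst ((hv x).inter ((hv y).inter ((hp x y).union (hp y x))))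
    · ext x
      exact (pos_iff_ne_zero : (0 < (fl ω.1).c 0 x) ↔ _)
    · exact (fl ω.1).isParent_move (choose_mem _ _ _ _) (pos_iff_ne_zero.1 h)
  · intro x
    have h : ∫⁻ ω, amount fl 0 ω x ∂μ.prod (choiceLaw d) = ∫⁻ g, (fl g).c 0 x ∂μ := by
      conv_rhs => rw [← hfst]
      rw [lintegral_map (hc 0 x) measurable_fst]
      rfl
    rw [h]
    exact hint x
  · refine Filter.Eventually.of_forall fun ω x => ?_
    obtain ⟨N, hN⟩ := (fl ω.1).height x
    exact ⟨N, fun n hn => (fl ω.1).eq_zero_of_le hN hn⟩

end Main

end Pool.Agent.Helper99.Clust
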